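import Mathlib

set_option linter.unusedSectionVars false
set_option linter.unusedVariables false

/-! Words in the free group: letter counts, buffers, injections. -/

namespace Pool.Agent.Helper22.CG

open FreeGroup

variable {m : ℕ}

/-- number of letters with index `i` -/
def wc (l : List (Fin m × Bool)) (i : Fin m) : ℕ := l.countP (fun x => x.1 = i)

/-- number of letters `a_i^{±1}` of the reduced word of `w` -/
def wp (w : FreeGroup (Fin m)) (i : Fin m) : ℕ := wc w.toWord i

/-- inverse letter -/
def il (x : Fin m × Bool) : Fin m × Bool := (x.1, !x.2)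

lemma il_il (x : Fin m × Bool) : il (il x) = x := by simp [il]

lemma wc_nil (i : Fin m) : wc [] i = 0 := rfl

lemma wc_append (l l' : List (Fin m × Bool)) (i : Fin m) : wc (l ++ l') i = wc l i + wc l' i := by
  simp [wc, List.countP_append]

lemma wc_cons (x : Fin m × Bool) (l : List (Fin m × Bool)) (i : Fin m) :
    wc (x :: l) i = wc l i + if x.1 = i then 1 else 0 := by
  simp [wc, List.countP_cons]

lemma invRev_def (l : List (Fin m × Bool)) : invRev l = (l.map il).reverse := rfl

lemma wc_invRev (l : List (Fin m × Bool)) (i : Fin m) : wc (invRev l) i = wc l i := by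
  rw [invRev_def, wc, wc, List.countP_reverse, List.countP_map]
  rfl

lemma sum_wc (l : List (Fin m × Bool)) : ∑ i, wc l i = l.length := by
  induction l with
  | nil => simp [wc_nil]
  | cons x l ih =>
    simp only [wc_cons, Finset.sum_add_distrib, ih, List.length_cons]
    simp

lemma sum_wp (w : FreeGroup (Fin m)) : ∑ i, wp w i = w.norm := sum_wc _

lemma rel_iff (a b : Fin m × Bool) : (a.1 = b.1 → a.2 = b.2) ↔ b ≠ il a := by
  obtain ⟨a1, a2⟩ := a
  obtain ⟨b1, b2⟩ := b
  simp only [il, ne_eq, Prod.mk.injEq, not_and]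
  constructor
  · intro h h1 h2
    have := h h1.symm
    subst this
    cases a2 <;> simp at h2
  · intro h h1
    have := h h1.symm
    cases a2 <;> cases b2 <;> simp_all

lemma toWord_mk_of {l : List (Fin m × Bool)} (h : IsReduced l) : (mk l).toWord = l := by
  rw [toWord_mk, h.reduce_eq]

lemma wp_mk {l : List (Fin m × Bool)} (h : IsReduced l) : wp (mk l) = wc l := by
  funext i
  rw [wp, toWord_mk_of h]

lemma norm_mk_of {l : List (Fin m × Bool)} (h : IsReduced l) : (mk l).norm = l.length := by
  rw [FreeGroup.norm, toWord_mk_of h]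

lemma exists_letter (hm : 2 ≤ m) (a b c : Fin m × Bool) :
    ∃ x : Fin m × Bool, x ≠ a ∧ x ≠ b ∧ x ≠ c := by
  have h1 : ({a, b, c} : Finset (Fin m × Bool)).card < (Finset.univ : Finset (Fin m × Bool)).card := by
    have h2 : ({a, b, c} : Finset (Fin m × Bool)).card ≤ 3 := Finset.card_le_three
    have h3 : (Finset.univ : Finset (Fin m × Bool)).card = m * 2 := by simp
    omega
  obtain ⟨x, _, hx⟩ := Finset.exists_mem_notMem_of_card_lt_card h1
  simp only [Finset.mem_insert, Finset.mem_singleton, not_or] at hx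
  exact ⟨x, hx.1, hx.2.1, hx.2.2⟩

lemma exists_letter' (hm : 2 ≤ m) (a b c : Option (Fin m × Bool)) :
    ∃ x : Fin m × Bool, (∀ y ∈ a, x ≠ y) ∧ (∀ y ∈ b, x ≠ y) ∧ (∀ y ∈ c, x ≠ y) := by
  have x0 : Fin m × Bool := (⟨0, by omega⟩, true)
  obtain ⟨x, h1, h2, h3⟩ := exists_letter hm (a.getD x0) (b.getD x0) (c.getD x0)
  refine ⟨x, ?_, ?_, ?_⟩
  · intro y hy
    rw [Option.mem_def] at hy
    subst hy; simpa using h1
  · intro y hy
    rw [Option.mem_def] at hy
    subst hy; simpa using h2
  · intro y hy
    rw [Option.mem_def] at hy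
    subst hy; simpa using h3

/-- joining two reduced words with a buffer letter -/
lemma join (hm : 2 ≤ m) (l1 l2 : List (Fin m × Bool)) (h1 : IsReduced l1) (h2 : IsReduced l2) :
    ∃ x, IsReduced (l1 ++ x :: l2) := by
  obtain ⟨x, hx1, hx2, _⟩ := exists_letter' hm (l1.getLast?.map il) (l2.head?.map il) none
  refine ⟨x, ?_⟩
  have h3 : IsReduced (x :: l2) := by
    apply List.IsChain.cons h2
    intro y hy
    rw [rel_iff]
    intro h
    apply hx2 (il y) (Option.mem_map_of_mem il hy)
    rw [h, il_il]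
  apply List.IsChain.append h1 h3
  intro y hy z hz
  rw [List.head?_cons, Option.mem_def, Option.some.injEq] at hz
  subst hz
  rw [rel_iff]
  exact hx1 (il y) (Option.mem_map_of_mem il hy)

lemma head_invRev (C : List (Fin m × Bool)) : (invRev C).head? = C.getLast?.map il := by
  rw [invRev_def, List.head?_reverse, List.getLast?_map]

/-- conjugating a nontrivial reduced word by a reduced word with a buffer letter -/
lemma conj_join (hm : 2 ≤ m) (C v : List (Fin m × Bool)) (h1 : IsReduced C) (h2 : IsReduced v)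
    (h1' : IsReduced (invRev C)) (hv : v ≠ []) :
    ∃ x, IsReduced (C ++ x :: (v ++ il x :: invRev C)) := by
  obtain ⟨x, hx1, hx2, hx3⟩ := exists_letter' hm (C.getLast?.map il) (v.head?.map il) v.getLast?
  refine ⟨x, ?_⟩
  have h3 : IsReduced (il x :: invRev C) := by
    apply List.IsChain.cons h1'
    intro y hy
    rw [head_invRev] at hy
    rw [rel_iff, il_il]
    exact (hx1 y hy).symm
  have h4 : IsReduced (v ++ il x :: invRev C) := by
    apply List.IsChain.append h2 h3
    intro y hy z hz
    rw [List.head?_cons, Option.mem_def, Option.some.injEq] at hz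
    subst hz
    rw [rel_iff]
    intro h
    apply hx3 y hy
    rw [← il_il x, h, il_il]
  have h5 : IsReduced (x :: (v ++ il x :: invRev C)) := by
    apply List.IsChain.cons h4
    intro y hy
    rw [List.head?_append_of_ne_nil _ hv] at hy
    rw [rel_iff]
    intro h
    apply hx2 (il y) (Option.mem_map_of_mem il hy)
    rw [h, il_il]
  apply List.IsChain.append h1 h5
  intro y hy z hz
  rw [List.head?_cons, Option.mem_def, Option.some.injEq] at hz
  subst hz
  rw [rel_iff]
  exact hx1 (il y) (Option.mem_map_of_mem il hy)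

lemma finite_norm (R : ℕ) : {w : FreeGroup (Fin m) | w.norm ≤ R}.Finite := by
  have h1 : {l : List (Fin m × Bool) | l.length ≤ R}.Finite := List.finite_length_le _ R
  exact Set.Finite.preimage (toWord_injective.injOn) h1

def AA (J : Fin m → ℕ) (n : ℕ) : Set (FreeGroup (Fin m)) :=
  {w | (∀ i, J i ≤ wp w i) ∧ w.norm ≤ (∑ i, J i) + n}

def TT (j : Fin m → ℕ) : Set (FreeGroup (Fin m)) := {w | wp w = j}

def ZZ (N : Subgroup (FreeGroup (Fin m))) (k : Fin m → ℕ) (n : ℕ) : Set (FreeGroup (Fin m)) :=
  {z | z ∈ N ∧ (∀ i, k i ≤ wp z i) ∧ z.norm ≤ (∑ i, k i) + n}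

lemma AA_fin (J : Fin m → ℕ) (n : ℕ) : (AA J n).Finite :=
  (finite_norm ((∑ i, J i) + n)).subset fun w hw => hw.2

lemma TT_norm {j : Fin m → ℕ} {w : FreeGroup (Fin m)} (hw : w ∈ TT j) : w.norm = ∑ i, j i := by
  rw [← sum_wp]
  exact Finset.sum_congr rfl fun i _ => congrFun hw i

lemma TT_fin (j : Fin m → ℕ) : (TT j).Finite :=
  (finite_norm (∑ i, j i)).subset fun w hw => (TT_norm hw).le

lemma ZZ_fin (N : Subgroup (FreeGroup (Fin m))) (k : Fin m → ℕ) (n : ℕ) : (ZZ N k n).Finite :=
  (finite_norm ((∑ i, k i) + n)).subset fun w hw => hw.2.2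

lemma inj1 (hm : 2 ≤ m) (J j : Fin m → ℕ) (n : ℕ) :
    (AA J n).ncard * (TT j).ncard ≤ (AA (J + j) (n + 1)).ncard := by
  classical
  have hx := fun p : FreeGroup (Fin m) × FreeGroup (Fin m) =>
    join hm p.1.toWord p.2.toWord isReduced_toWord isReduced_toWord
  choose x hx using hx
  rw [← Set.ncard_prod]
  apply Set.ncard_le_ncard_of_injOn (fun p => mk (p.1.toWord ++ x p :: p.2.toWord)) _ _
    (AA_fin _ _)
  · rintro ⟨w, w'⟩ ⟨⟨h1, h2⟩, h3⟩
    dsimp only at h1 h2 h3
    refine ⟨fun i => ?_, ?_⟩
    · rw [wp_mk (hx (w, w')), wc_append, wc_cons]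
      have h4 := h1 i
      have h5 : wc w'.toWord i = j i := congrFun h3 i
      simp only [Pi.add_apply]
      rw [wp] at h4
      omega
    · rw [norm_mk_of (hx (w, w'))]
      have h4 : w'.norm = _ := TT_norm h3
      simp only [List.length_append, List.length_cons, Pi.add_apply, Finset.sum_add_distrib]
      have h5 : w.toWord.length ≤ _ := h2
      have h6 : w'.toWord.length = _ := h4
      omega
  · rintro ⟨w, w'⟩ ⟨h1, h2⟩ ⟨v, v'⟩ ⟨h3, h4⟩ heq
    have e1 : (w.toWord ++ x (w, w') :: w'.toWord) = (v.toWord ++ x (v, v') :: v'.toWord) := by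
      have := congrArg toWord heq
      rwa [toWord_mk_of (hx (w, w')), toWord_mk_of (hx (v, v'))] at this
    have h5 : w'.toWord.length = ∑ i, j i := TT_norm h2
    have h6 : v'.toWord.length = ∑ i, j i := TT_norm h4
    have e2 := List.append_inj' e1 (by simp [h5, h6])
    have e3 := (List.cons.inj e2.2).2
    rw [Prod.mk.injEq]
    exact ⟨toWord_injective e2.1, toWord_injective e3⟩

lemma inj2 (hm : 2 ≤ m) (N : Subgroup (FreeGroup (Fin m))) (hN : N.Normal) (J l : Fin m → ℕ)
    (n : ℕ) :
    (AA J n).ncard * ({v | v ∈ N ∧ v ≠ 1 ∧ wp v = l} : Set (FreeGroup (Fin m))).ncard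
      ≤ (ZZ N (2 • J + l) (2 * n + 2)).ncard := by
  classical
  have hx := fun p : FreeGroup (Fin m) × {v : FreeGroup (Fin m) // v ≠ 1} =>
    conj_join hm p.1.toWord p.2.1.toWord isReduced_toWord isReduced_toWord
      (by rw [← toWord_inv]; exact isReduced_toWord)
      (by rw [Ne, toWord_eq_nil_iff]; exact p.2.2)
  choose x hx using hx
  let y : FreeGroup (Fin m) × FreeGroup (Fin m) → Fin m × Bool := fun p =>
    if h : p.2 ≠ 1 then x (p.1, ⟨p.2, h⟩) else (⟨0, by omega⟩, true)
  have hy : ∀ C v : FreeGroup (Fin m), v ≠ 1 →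
      IsReduced (C.toWord ++ y (C, v) :: (v.toWord ++ il (y (C, v)) :: invRev C.toWord)) := by
    intro C v hv
    simp only [y, hv, ne_eq, not_false_eq_true, dif_pos]
    exact hx (C, ⟨v, hv⟩)
  rw [← Set.ncard_prod]
  apply Set.ncard_le_ncard_of_injOn
    (fun p => mk (p.1.toWord ++ y p :: (p.2.toWord ++ il (y p) :: invRev p.1.toWord))) _ _
    (ZZ_fin _ _ _)
  · rintro ⟨C, v⟩ ⟨⟨h1, h2⟩, h3, h4, h5⟩
    dsimp only at h1 h2 h3 h4 h5
    have hr := hy C v h4
    refine ⟨?_, fun i => ?_, ?_⟩
    · have e1 : mk (C.toWord ++ y (C, v) :: (v.toWord ++ il (y (C, v)) :: invRev C.toWord))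
          = mk (C.toWord ++ [y (C, v)]) * v * (mk (C.toWord ++ [y (C, v)]))⁻¹ := by
        have e0 : v = mk v.toWord := mk_toWord.symm
        generalize y (C, v) = z
        conv_rhs => rw [e0]
        rw [inv_mk, mul_mk, mul_mk]
        congr 1
        rw [invRev_append]
        simp [invRev, il]
      show mk (C.toWord ++ y (C, v) :: (v.toWord ++ il (y (C, v)) :: invRev C.toWord)) ∈ N
      rw [e1]
      exact hN.conj_mem v h3 _
    · show (2 • J + l) i ≤ wp (mk (C.toWord ++ y (C, v) ::
        (v.toWord ++ il (y (C, v)) :: invRev C.toWord))) i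
      rw [wp_mk hr, wc_append, wc_cons, wc_append, wc_cons, wc_invRev]
      have h6 := h1 i
      have h7 : wc v.toWord i = l i := congrFun h5 i
      simp only [Pi.add_apply, Pi.smul_apply, smul_eq_mul]
      rw [wp] at h6
      omega
    · show (mk (C.toWord ++ y (C, v) ::
        (v.toWord ++ il (y (C, v)) :: invRev C.toWord))).norm ≤ _
      rw [norm_mk_of hr]
      have h6 : v.toWord.length = ∑ i, l i := TT_norm (j := l) h5
      have h7 : C.toWord.length ≤ _ := h2
      simp only [List.length_append, List.length_cons, Pi.add_apply, Finset.sum_add_distrib,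
        Pi.smul_apply, smul_eq_mul, ← Finset.mul_sum, invRev_length]
      omega
  · rintro ⟨C, v⟩ ⟨h1, h2, h3, h4⟩ ⟨C', v'⟩ ⟨h1', h2', h3', h4'⟩ heq
    have e1 : C.toWord ++ y (C, v) :: (v.toWord ++ il (y (C, v)) :: invRev C.toWord)
        = C'.toWord ++ y (C', v') :: (v'.toWord ++ il (y (C', v')) :: invRev C'.toWord) := by
      have := congrArg toWord heq
      rwa [toWord_mk_of (hy C v h3), toWord_mk_of (hy C' v' h3')] at this
    have h5 : v.toWord.length = ∑ i, l i := TT_norm (j := l) h4
    have h6 : v'.toWord.length = ∑ i, l i := TT_norm (j := l) h4'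
    have h7 : C.toWord.length = C'.toWord.length := by
      have := congrArg List.length e1
      simp only [List.length_append, List.length_cons, invRev_length] at this
      omega
    have e2 := List.append_inj e1 h7
    have e3 := (List.cons.inj e2.2).2
    have e4 := List.append_inj e3 (by rw [h5, h6])
    rw [Prod.mk.injEq]
    exact ⟨toWord_injective e2.1, toWord_injective e4.1⟩

end Pool.Agent.Helper22.CG
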