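import Pool.Agent.Helper22.CG.C1

set_option linter.unusedSectionVars false
set_option linter.unusedVariables false

/-! The coefficients of powers of the type sums. -/

namespace Pool.Agent.Helper22.CG

open FreeGroup

variable {m : ℕ}

lemma split (l1 l2 : List (Fin m × Bool)) : ∃ s c p, l1 = s ++ c ∧ l2 = s ++ p ∧
    (∀ a ∈ c.head?, ∀ b ∈ p.head?, a ≠ b) := by
  induction l1 generalizing l2 with
  | nil => exact ⟨[], [], l2, rfl, rfl, by simp⟩
  | cons x l1 ih =>
    cases l2 with
    | nil => exact ⟨[], x :: l1, [], rfl, rfl, by simp⟩
    | cons y l2 =>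
      by_cases h : x = y
      · subst h
        obtain ⟨s, c, p, h1, h2, h3⟩ := ih l2
        exact ⟨x :: s, c, p, by rw [h1]; rfl, by rw [h2]; rfl, h3⟩
      · exact ⟨[], x :: l1, y :: l2, rfl, rfl, by simpa using h⟩

lemma toWord_inv_mul {w v : FreeGroup (Fin m)} {s c p : List (Fin m × Bool)}
    (h1 : w.toWord = s ++ c) (h2 : v.toWord = s ++ p)
    (h3 : ∀ a ∈ c.head?, ∀ b ∈ p.head?, a ≠ b) : (w⁻¹ * v).toWord = invRev c ++ p := by
  have hw : IsReduced (s ++ c) := by rw [← h1]; exact isReduced_toWord
  have hv : IsReduced (s ++ p) := by rw [← h2]; exact isReduced_toWord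
  have hc : IsReduced c := List.IsChain.right_of_append hw
  have hp : IsReduced p := List.IsChain.right_of_append hv
  have hc' : IsReduced (invRev c) := by
    have : c = (mk c).toWord := (toWord_mk_of hc).symm
    rw [this, ← toWord_inv]
    exact isReduced_toWord
  have hr : IsReduced (invRev c ++ p) := by
    apply List.IsChain.append hc' hp
    intro y hy z hz
    rw [rel_iff]
    rw [invRev_def, List.getLast?_reverse, List.head?_map] at hy
    obtain ⟨a, ha, hay⟩ := Option.mem_map.1 hy
    have := h3 a ha z hz
    rw [← hay, il_il]
    exact this.symm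
  have e1 : w = mk s * mk c := by rw [mul_mk, ← h1, mk_toWord]
  have e2 : v = mk s * mk p := by rw [mul_mk, ← h2, mk_toWord]
  have e3 : w⁻¹ * v = mk (invRev c ++ p) := by
    rw [← mul_mk, ← inv_mk, e1, e2]; group
  rw [e3, toWord_mk_of hr]

/-- the sum of all elements of a given type, in the group algebra -/
noncomputable def SF (k : Fin m → ℕ) : MonoidAlgebra ℝ (FreeGroup (Fin m)) :=
  ∑ w ∈ (TT_fin k).toFinset, MonoidAlgebra.single w (1 : ℝ)

lemma SF_mul (k : Fin m → ℕ) (a : MonoidAlgebra ℝ (FreeGroup (Fin m))) (v : FreeGroup (Fin m)) :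
    (SF k * a).coeff v = ∑ w ∈ (TT_fin k).toFinset, a.coeff (w⁻¹ * v) := by
  rw [SF, Finset.sum_mul, MonoidAlgebra.coeff_sum, Finsupp.finsetSum_apply]
  apply Finset.sum_congr rfl
  intro w _
  rw [MonoidAlgebra.coeff_single_mul_apply, one_mul]

/-- number of types below `k` -/
def Kc (k : Fin m → ℕ) : ℕ := (Finset.Iic k).card

lemma D1 (hm : 2 ≤ m) (k : Fin m → ℕ) (n : ℕ) : ∀ v : FreeGroup (Fin m),
    0 ≤ (SF k ^ n).coeff v ∧
    ((SF k ^ n).coeff v ≠ 0 → ∃ J : Fin m → ℕ, ∀ i, wp v i + 2 * J i = n * k i) ∧
    ∀ J : Fin m → ℕ, (∀ i, wp v i + 2 * J i = n * k i) →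
      (SF k ^ n).coeff v ≤ (Kc k : ℝ) ^ n * ((AA J n).ncard : ℝ) := by
  classical
  induction n with
  | zero =>
    intro v
    rw [pow_zero]
    by_cases hv : v = 1
    · subst hv
      have h1 : (1 : MonoidAlgebra ℝ (FreeGroup (Fin m))).coeff 1 = 1 := by
        rw [MonoidAlgebra.one_def]; exact Finsupp.single_eq_same
      rw [h1]
      refine ⟨zero_le_one, fun _ => ⟨0, fun i => ?_⟩, ?_⟩
      · simp [wp, wc]
      · intro J hJ
        rw [pow_zero, one_mul]
        have : (1 : FreeGroup (Fin m)) ∈ AA J 0 := by
          refine ⟨fun i => ?_, by simp⟩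
          have := hJ i
          omega
        have h2 : 0 < (AA J 0).ncard := (Set.ncard_pos (AA_fin J 0)).2 ⟨1, this⟩
        exact_mod_cast h2
    · have h1 : (1 : MonoidAlgebra ℝ (FreeGroup (Fin m))).coeff v = 0 := by
        rw [MonoidAlgebra.one_def]; exact Finsupp.single_eq_of_ne hv
      rw [h1]
      refine ⟨le_rfl, fun h => absurd rfl h, fun J _ => by positivity⟩
  | succ n ih =>
    intro v
    have hmul : (SF k ^ (n + 1)).coeff v = ∑ w ∈ (TT_fin k).toFinset, (SF k ^ n).coeff (w⁻¹ * v) := by
      rw [pow_succ', SF_mul]
    -- splitting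
    have hsp := fun w : FreeGroup (Fin m) => split w.toWord v.toWord
    choose s c p h1 h2 h3 using hsp
    have hu : ∀ w, (w⁻¹ * v).toWord = invRev (c w) ++ p w := fun w =>
      toWord_inv_mul (h1 w) (h2 w) (h3 w)
    have hwu : ∀ w i, wp (w⁻¹ * v) i = wc (c w) i + wc (p w) i := by
      intro w i
      rw [wp, hu w, wc_append, wc_invRev]
    have hwv : ∀ w i, wp v i = wc (s w) i + wc (p w) i := by
      intro w i
      rw [wp, h2 w, wc_append]
    have hww : ∀ w ∈ TT k, ∀ i, k i = wc (s w) i + wc (c w) i := by
      intro w hw i
      rw [← congrFun (hw : wp w = k) i, wp, h1 w, wc_append]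
    rw [hmul]
    refine ⟨Finset.sum_nonneg fun w _ => (ih _).1, ?_, ?_⟩
    · intro hne
      obtain ⟨w, hw, hw2⟩ := Finset.exists_ne_zero_of_sum_ne_zero hne
      rw [Set.Finite.mem_toFinset] at hw
      obtain ⟨J, hJ⟩ := (ih (w⁻¹ * v)).2.1 hw2
      refine ⟨fun i => J i + wc (c w) i, fun i => ?_⟩
      have e1 := hJ i
      rw [hwu] at e1
      have e2 := hww w hw i
      rw [hwv w i, add_mul, one_mul]
      dsimp only
      omega
    · intro J hJ
      have hcr : ∀ w, IsReduced (c w) := fun w => by
        have : IsReduced (s w ++ c w) := by rw [← h1]; exact isReduced_toWord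
        exact List.IsChain.right_of_append this
      -- bound on each term
      have hterm : ∀ w ∈ (TT_fin k).toFinset, (SF k ^ n).coeff (w⁻¹ * v) ≤
          if (∀ i, wc (c w) i ≤ J i) then
            (Kc k : ℝ) ^ n * ((AA (fun i => J i - wc (c w) i) n).ncard : ℝ) else 0 := by
        intro w hw
        rw [Set.Finite.mem_toFinset] at hw
        by_cases h0 : (SF k ^ n).coeff (w⁻¹ * v) = 0
        · rw [h0]
          split_ifs <;> positivity
        · obtain ⟨J', hJ'⟩ := (ih (w⁻¹ * v)).2.1 h0
          have e0 : ∀ i, J i = J' i + wc (c w) i := by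
            intro i
            have e1 := hJ' i
            rw [hwu] at e1
            have e2 := hww w hw i
            have e3 := hJ i
            rw [hwv w i, add_mul, one_mul] at e3
            omega
          rw [if_pos (fun i => by rw [e0 i]; omega)]
          have e4 : (fun i => J i - wc (c w) i) = J' := by
            funext i; rw [e0 i]; omega
          rw [e4]
          exact (ih (w⁻¹ * v)).2.2 J' hJ'
      refine (Finset.sum_le_sum hterm).trans ?_
      have hmaps : ∀ w ∈ (TT_fin k).toFinset, (fun i => wc (c w) i) ∈ Finset.Iic k := by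
        intro w hw
        rw [Set.Finite.mem_toFinset] at hw
        rw [Finset.mem_Iic]
        intro i
        have := hww w hw i
        dsimp only
        omega
      rw [← Finset.sum_fiberwise_of_maps_to hmaps]
      have hj : ∀ j ∈ Finset.Iic k,
          (∑ w ∈ (TT_fin k).toFinset with (fun i => wc (c w) i) = j,
            if (∀ i, wc (c w) i ≤ J i) then
              (Kc k : ℝ) ^ n * ((AA (fun i => J i - wc (c w) i) n).ncard : ℝ) else 0)
            ≤ (Kc k : ℝ) ^ n * ((AA J (n + 1)).ncard : ℝ) := by
        intro j _
        by_cases hjJ : ∀ i, j i ≤ J i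
        · have e1 : (∑ w ∈ (TT_fin k).toFinset with (fun i => wc (c w) i) = j,
            if (∀ i, wc (c w) i ≤ J i) then
              (Kc k : ℝ) ^ n * ((AA (fun i => J i - wc (c w) i) n).ncard : ℝ) else 0)
              = ∑ w ∈ (TT_fin k).toFinset with (fun i => wc (c w) i) = j,
                (Kc k : ℝ) ^ n * ((AA (J - j) n).ncard : ℝ) := by
            apply Finset.sum_congr rfl
            intro w hw
            rw [Finset.mem_filter] at hw
            have e2 : ∀ i, wc (c w) i = j i := fun i => congrFun hw.2 i
            rw [if_pos (fun i => by rw [e2 i]; exact hjJ i)]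
            congr 4
            funext i
            rw [e2 i]; rfl
          rw [e1, Finset.sum_const, nsmul_eq_mul]
          have e3 : (((TT_fin k).toFinset.filter (fun w => (fun i => wc (c w) i) = j)).card)
              ≤ (TT j).ncard := by
            rw [← Set.ncard_coe_finset]
            apply Set.ncard_le_ncard_of_injOn (fun w => mk (c w)) _ _ (TT_fin j)
            · intro w hw
              rw [Finset.coe_filter] at hw
              show wp (mk (c w)) = j
              rw [wp_mk (hcr w)]
              exact hw.2
            · intro w hw w' hw' heq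
              rw [Finset.coe_filter] at hw hw'
              have e4 : c w = c w' := by
                have := congrArg toWord heq
                rwa [toWord_mk_of (hcr w), toWord_mk_of (hcr w')] at this
              have e5 : (s w).length = (s w').length := by
                have hw1 : w.norm = _ := TT_norm ((Set.Finite.mem_toFinset _).1 hw.1)
                have hw2 : w'.norm = _ := TT_norm ((Set.Finite.mem_toFinset _).1 hw'.1)
                have e6 : w.toWord.length = w'.toWord.length := by
                  show w.norm = w'.norm
                  rw [hw1, hw2]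
                rw [h1 w, h1 w', List.length_append, List.length_append, e4] at e6
                omega
              have e7 : s w ++ p w = s w' ++ p w' := by rw [← h2, ← h2]
              have e8 := (List.append_inj e7 e5).1
              apply toWord_injective
              rw [h1 w, h1 w', e8, e4]
          have e9 := inj1 hm (J - j) j n
          have e10 : J - j + j = J := by
            funext i
            simp only [Pi.add_apply, Pi.sub_apply]
            have := hjJ i
            omega
          rw [e10] at e9
          have e11 : ((((TT_fin k).toFinset.filter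
              (fun w => (fun i => wc (c w) i) = j)).card : ℕ) : ℝ)
              * ((AA (J - j) n).ncard : ℝ) ≤ ((AA J (n + 1)).ncard : ℝ) := by
            have : (((TT_fin k).toFinset.filter (fun w => (fun i => wc (c w) i) = j)).card)
              * (AA (J - j) n).ncard ≤ (AA J (n + 1)).ncard := by
              calc _ ≤ (TT j).ncard * (AA (J - j) n).ncard := Nat.mul_le_mul_right _ e3
                _ = (AA (J - j) n).ncard * (TT j).ncard := Nat.mul_comm _ _
                _ ≤ _ := e9
            exact_mod_cast this
          calc _ = (Kc k : ℝ) ^ n * (((((TT_fin k).toFinset.filter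
              (fun w => (fun i => wc (c w) i) = j)).card : ℕ) : ℝ)
              * ((AA (J - j) n).ncard : ℝ)) := by ring
            _ ≤ _ := mul_le_mul_of_nonneg_left e11 (by positivity)
        · have e1 : (∑ w ∈ (TT_fin k).toFinset with (fun i => wc (c w) i) = j,
            if (∀ i, wc (c w) i ≤ J i) then
              (Kc k : ℝ) ^ n * ((AA (fun i => J i - wc (c w) i) n).ncard : ℝ) else 0) = 0 := by
            apply Finset.sum_eq_zero
            intro w hw
            rw [Finset.mem_filter] at hw
            rw [if_neg]
            intro h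
            apply hjJ
            intro i
            rw [← congrFun hw.2 i]
            exact h i
          rw [e1]
          positivity
      refine (Finset.sum_le_sum hj).trans ?_
      rw [Finset.sum_const, nsmul_eq_mul, pow_succ]
      apply le_of_eq
      rw [Kc]
      ring

end Pool.Agent.Helper22.CG
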