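import Mathlib

set_option linter.unusedSectionVars false
set_option linter.unusedVariables false

/-! Moments in the real group algebra. -/

namespace Pool.Agent.Helper22.CG

open MonoidAlgebra

section alg

variable {Γ : Type} [Group Γ]

/-- the `ℓ²` form -/
noncomputable def B (a b : MonoidAlgebra ℝ Γ) : ℝ := a.coeff.sum (fun g x => x * b.coeff g)

lemma B_eq (a b : MonoidAlgebra ℝ Γ) (s : Finset Γ) (hs : a.coeff.support ⊆ s) :
    B a b = ∑ g ∈ s, a.coeff g * b.coeff g := by
  rw [B, Finsupp.sum]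
  apply Finset.sum_subset hs
  intro g _ hg
  rw [Finsupp.notMem_support_iff] at hg
  rw [hg, zero_mul]

lemma B_comm (a b : MonoidAlgebra ℝ Γ) : B a b = B b a := by
  classical
  rw [B_eq a b (a.coeff.support ∪ b.coeff.support) Finset.subset_union_left,
    B_eq b a (a.coeff.support ∪ b.coeff.support) Finset.subset_union_right]
  exact Finset.sum_congr rfl fun g _ => mul_comm _ _

lemma B_add_left (a b c : MonoidAlgebra ℝ Γ) : B (a + b) c = B a c + B b c := by
  rw [B, coeff_add, Finsupp.sum_add_index']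
  · rfl
  · intro g; rw [zero_mul]
  · intro g x y; rw [add_mul]

lemma B_add_right (a b c : MonoidAlgebra ℝ Γ) : B a (b + c) = B a b + B a c := by
  rw [B_comm, B_add_left, B_comm b, B_comm c]

lemma B_smul_left (r : ℝ) (a b : MonoidAlgebra ℝ Γ) : B (r • a) b = r * B a b := by
  rw [B, coeff_smul, Finsupp.sum_smul_index' (by intro g; rw [zero_mul]), B, Finsupp.mul_sum]
  simp only [smul_eq_mul, mul_assoc]

lemma B_smul_right (r : ℝ) (a b : MonoidAlgebra ℝ Γ) : B a (r • b) = r * B a b := by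
  rw [B_comm, B_smul_left, B_comm]

lemma B_zero_left (b : MonoidAlgebra ℝ Γ) : B 0 b = 0 := by
  simp [B]

lemma B_sum_left {ι : Type} (s : Finset ι) (a : ι → MonoidAlgebra ℝ Γ) (b : MonoidAlgebra ℝ Γ) :
    B (∑ i ∈ s, a i) b = ∑ i ∈ s, B (a i) b := by
  classical
  induction s using Finset.induction_on with
  | empty => simp [B_zero_left]
  | insert i s hi ih => rw [Finset.sum_insert hi, Finset.sum_insert hi, B_add_left, ih]

lemma B_single (g : Γ) (r : ℝ) (b : MonoidAlgebra ℝ Γ) : B (single g r) b = r * b.coeff g := by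
  rw [B, coeff_single, Finsupp.sum_single_index]
  rw [zero_mul]

lemma B_one_right (a : MonoidAlgebra ℝ Γ) : B a 1 = a.coeff 1 := by
  rw [B_comm, one_def, B_single, one_mul]

lemma B_self_nonneg (a : MonoidAlgebra ℝ Γ) : 0 ≤ B a a := by
  rw [B, Finsupp.sum]
  exact Finset.sum_nonneg fun g _ => mul_self_nonneg _

lemma B_sub (a b : MonoidAlgebra ℝ Γ) : B (a - b) (a - b) = B a a - 2 * B a b + B b b := by
  have h : a - b = a + (-1 : ℝ) • b := by rw [neg_one_smul, sub_eq_add_neg]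
  rw [h, B_add_left, B_add_right, B_add_right, B_smul_left, B_smul_right, B_smul_left,
    B_smul_right, B_comm b a]
  ring

lemma B_par (a b : MonoidAlgebra ℝ Γ) : B (a + b) (a + b) ≤ 2 * B a a + 2 * B b b := by
  have h1 := B_self_nonneg (a - b)
  rw [B_sub] at h1
  rw [B_add_left, B_add_right, B_add_right, B_comm b a]
  linarith

lemma B_cs (a b : MonoidAlgebra ℝ Γ) : B a b ^ 2 ≤ B a a * B b b := by
  classical
  set s := a.coeff.support ∪ b.coeff.support
  rw [B_eq a b s Finset.subset_union_left, B_eq a a s Finset.subset_union_left,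
    B_eq b b s Finset.subset_union_right]
  have := Finset.sum_mul_sq_le_sq_mul_sq s (fun g => a.coeff g) (fun g => b.coeff g)
  simpa [pow_two] using this

lemma B_lmul (g : Γ) (a b : MonoidAlgebra ℝ Γ) :
    B (single g 1 * a) b = B a (single g⁻¹ 1 * b) := by
  induction a using MonoidAlgebra.induction_linear with
  | zero => simp [B_zero_left]
  | add a a' h h' => rw [mul_add, B_add_left, B_add_left, h, h']
  | single h r =>
    rw [single_mul_single, one_mul, B_single, B_single, coeff_single_mul_apply]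
    simp

lemma B_rmul (x : Γ) (a b : MonoidAlgebra ℝ Γ) :
    B (a * single x 1) (b * single x 1) = B a b := by
  induction a using MonoidAlgebra.induction_linear with
  | zero => simp [B_zero_left]
  | add a a' h h' => rw [add_mul, B_add_left, B_add_left, h, h']
  | single h r =>
    rw [single_mul_single, mul_one, B_single, B_single, coeff_mul_single_apply]
    simp

def Sym (S : MonoidAlgebra ℝ Γ) : Prop := ∀ a b, B (S * a) b = B a (S * b)

lemma Sym.pow {S : MonoidAlgebra ℝ Γ} (hS : Sym S) (n : ℕ) : Sym (S ^ n) := by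
  induction n with
  | zero => intro a b; simp
  | succ n ih =>
    intro a b
    rw [pow_succ, mul_assoc, ih, hS, ← mul_assoc, ← pow_succ', pow_succ, mul_assoc]

lemma moment {S : MonoidAlgebra ℝ Γ} (hS : Sym S) (a b : ℕ) :
    B (S ^ a) (S ^ b) = (S ^ (a + b)).coeff 1 := by
  have h := (hS.pow b) (S ^ a) 1
  rw [mul_one, ← pow_add, B_one_right] at h
  rw [add_comm a b, h]

/-- doubling -/
lemma doubling {S f : MonoidAlgebra ℝ Γ} (hS : Sym S) {c : ℝ} (hc : 0 ≤ c) (hf0 : 0 < B f f)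
    (hf : c * B f f ≤ B (S * f) f) (j : ℕ) :
    c ^ (2 ^ j) * B f f ≤ B (S ^ (2 ^ j) * f) f := by
  induction j with
  | zero => simpa using hf
  | succ j ih =>
    set l := 2 ^ j with hl
    have h1 : B (S ^ (2 ^ (j + 1)) * f) f = B (S ^ l * f) (S ^ l * f) := by
      have : S ^ (2 ^ (j + 1)) * f = S ^ l * (S ^ l * f) := by
        rw [← mul_assoc, ← pow_add, pow_succ, ← hl]
        ring_nf
      rw [this, (hS.pow l)]
    have h2 := B_cs (S ^ l * f) f
    rw [h1]
    have h3 : (c ^ l * B f f) ^ 2 ≤ (B (S ^ l * f) f) ^ 2 :=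
      pow_le_pow_left₀ (by positivity) ih 2
    have h4 : c ^ (2 ^ (j + 1)) = c ^ l * c ^ l := by
      rw [← pow_add, pow_succ, ← hl]; ring_nf
    rw [h4]
    have h5 : (c ^ l * c ^ l * B f f) * B f f ≤ B (S ^ l * f) (S ^ l * f) * B f f := by
      calc _ = (c ^ l * B f f) ^ 2 := by ring
        _ ≤ _ := h3.trans h2
    exact le_of_mul_le_mul_right h5 hf0

lemma pd {S : MonoidAlgebra ℝ Γ} (hS : Sym S) (l : ℕ) (x : Γ) :
    |(S ^ (l + l)).coeff x| ≤ (S ^ (l + l)).coeff 1 := by
  have h0 : (S ^ (l + l)).coeff x = B (S ^ l) (S ^ l * single x 1) := by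
    rw [← (hS.pow l), ← pow_add, B_comm, B_single, one_mul]
  have h1 := B_cs (S ^ l) (S ^ l * single x 1)
  rw [B_rmul, moment hS, ← h0] at h1
  have h2 : 0 ≤ (S ^ (l + l)).coeff 1 := by rw [← moment hS]; exact B_self_nonneg _
  exact abs_le_of_sq_le_sq (by rw [pow_two ((S ^ (l + l)).coeff 1)]; exact h1) h2

/-- the `ℓ¹` norm -/
noncomputable def n1 (f : MonoidAlgebra ℝ Γ) : ℝ := ∑ g ∈ f.coeff.support, |f.coeff g|

lemma n1_nonneg (f : MonoidAlgebra ℝ Γ) : 0 ≤ n1 f := Finset.sum_nonneg fun _ _ => abs_nonneg _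

lemma B_bound {P f : MonoidAlgebra ℝ Γ} (hP : ∀ x, |P.coeff x| ≤ P.coeff 1) :
    B (P * f) f ≤ n1 f ^ 2 * P.coeff 1 := by
  have h0 : 0 ≤ P.coeff 1 := (abs_nonneg _).trans (hP 1)
  have h1 : ∀ h, |(P * f).coeff h| ≤ P.coeff 1 * n1 f := by
    intro h
    rw [coeff_mul_apply_right, Finsupp.sum, n1, Finset.mul_sum]
    refine (Finset.abs_sum_le_sum_abs _ _).trans (Finset.sum_le_sum fun g _ => ?_)
    rw [abs_mul]
    exact mul_le_mul_of_nonneg_right (hP _) (abs_nonneg _)
  rw [B_comm, B, Finsupp.sum]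
  calc ∑ g ∈ f.coeff.support, f.coeff g * (P * f).coeff g
      ≤ ∑ g ∈ f.coeff.support, |f.coeff g| * (P.coeff 1 * n1 f) := by
        apply Finset.sum_le_sum
        intro g _
        calc f.coeff g * (P * f).coeff g ≤ |f.coeff g * (P * f).coeff g| := le_abs_self _
          _ = |f.coeff g| * |(P * f).coeff g| := abs_mul _ _
          _ ≤ _ := mul_le_mul_of_nonneg_left (h1 g) (abs_nonneg _)
    _ = n1 f ^ 2 * P.coeff 1 := by rw [← Finset.sum_mul, ← n1]; ring

/-- consequence: large powers have large coefficient at `1` -/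
lemma large {S f : MonoidAlgebra ℝ Γ} (hS : Sym S) {c : ℝ} (hc : 0 ≤ c) (hf0 : 0 < B f f)
    (hf : c * B f f ≤ B (S * f) f) :
    ∃ κ : ℝ, 0 < κ ∧ ∀ j : ℕ, 1 ≤ j → κ * c ^ (2 ^ j) ≤ (S ^ (2 ^ j)).coeff 1 := by
  have hn : 0 < n1 f := by
    rcases (n1_nonneg f).lt_or_eq with h | h
    · exact h
    · exfalso
      have h1 : ∀ g ∈ f.coeff.support, |f.coeff g| = 0 :=
        (Finset.sum_eq_zero_iff_of_nonneg fun _ _ => abs_nonneg _).1 h.symm
      have h2 : B f f = 0 := by
        rw [B, Finsupp.sum]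
        apply Finset.sum_eq_zero
        intro g hg
        rw [abs_eq_zero.1 (h1 g hg), zero_mul]
      rw [h2] at hf0
      exact lt_irrefl _ hf0
  refine ⟨B f f / n1 f ^ 2, by positivity, ?_⟩
  intro j hj
  have h1 := doubling hS hc hf0 hf j
  obtain ⟨i, rfl⟩ : ∃ i, j = i + 1 := ⟨j - 1, by omega⟩
  have h2 : 2 ^ (i + 1) = 2 ^ i + 2 ^ i := by rw [pow_succ]; ring
  have h3 := B_bound (f := f) (P := S ^ (2 ^ (i + 1))) (by rw [h2]; exact pd hS _)
  rw [div_mul_eq_mul_div, div_le_iff₀ (by positivity)]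
  calc B f f * c ^ 2 ^ (i + 1) = c ^ 2 ^ (i + 1) * B f f := mul_comm _ _
    _ ≤ _ := h1.trans h3
    _ = _ := mul_comm _ _

/-- small quadratic form forces small moments -/
lemma small {S : MonoidAlgebra ℝ Γ} (hS : Sym S) {s : ℝ} (hs : 0 ≤ s)
    (h : ∀ f, B (S * f) f ≤ s * B f f) (i : ℕ) :
    (S ^ (2 * i + 1)).coeff 1 + s * (S ^ (2 * i)).coeff 1 ≤ s ^ (2 * i) * (S.coeff 1 + s) := by
  induction i with
  | zero => simp
  | succ i ih =>
    have h1 := h (S ^ (i + 1) + s • S ^ i)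
    have e1 : S * (S ^ (i + 1) + s • S ^ i) = S ^ (i + 2) + s • S ^ (i + 1) := by
      rw [mul_add, mul_smul_comm, ← pow_succ', ← pow_succ']
    rw [e1] at h1
    simp only [B_add_left, B_add_right, B_smul_left, B_smul_right, moment hS] at h1
    have f1 : i + 2 + (i + 1) = 2 * (i + 1) + 1 := by ring
    have f2 : i + 2 + i = 2 * (i + 1) := by ring
    have f3 : i + 1 + (i + 1) = 2 * (i + 1) := by ring
    have f4 : i + 1 + i = 2 * i + 1 := by ring
    have f5 : i + i = 2 * i := by ring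
    have f6 : i + (i + 1) = 2 * i + 1 := by ring
    rw [f1, f2, f3, f4, f5, f6] at h1
    have h2 : (S ^ (2 * (i + 1) + 1)).coeff 1 + s * (S ^ (2 * (i + 1))).coeff 1
        ≤ s ^ 2 * ((S ^ (2 * i + 1)).coeff 1 + s * (S ^ (2 * i)).coeff 1) := by
      nlinarith
    calc _ ≤ s ^ 2 * ((S ^ (2 * i + 1)).coeff 1 + s * (S ^ (2 * i)).coeff 1) := h2
      _ ≤ s ^ 2 * (s ^ (2 * i) * (S.coeff 1 + s)) := mul_le_mul_of_nonneg_left ih (by positivity)
      _ = _ := by ring

/-- the defect of invariance -/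
noncomputable def E (f : MonoidAlgebra ℝ Γ) (g : Γ) : ℝ :=
  B (single g 1 * f - f) (single g 1 * f - f)

lemma E_eq (f : MonoidAlgebra ℝ Γ) (g : Γ) : E f g = 2 * B f f - 2 * B (single g 1 * f) f := by
  rw [E, B_sub, B_lmul g f (single g 1 * f), ← mul_assoc, single_mul_single, inv_mul_cancel,
    one_mul, ← one_def, one_mul]
  ring

lemma E_nonneg (f : MonoidAlgebra ℝ Γ) (g : Γ) : 0 ≤ E f g := B_self_nonneg _

lemma E_one (f : MonoidAlgebra ℝ Γ) : E f 1 = 0 := by
  rw [E, ← one_def, one_mul, sub_self, B_zero_left]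

lemma E_mul (f : MonoidAlgebra ℝ Γ) (g h : Γ) : E f (g * h) ≤ 2 * E f h + 2 * E f g := by
  have e1 : single (g * h) 1 * f - f
      = single g 1 * (single h 1 * f - f) + (single g 1 * f - f) := by
    rw [mul_sub, ← mul_assoc, single_mul_single, one_mul]
    abel
  have e2 : B (single g 1 * (single h 1 * f - f)) (single g 1 * (single h 1 * f - f)) = E f h := by
    rw [B_lmul, ← mul_assoc, single_mul_single, inv_mul_cancel, one_mul, ← one_def, one_mul]
    rfl
  rw [E, e1]
  refine (B_par _ _).trans ?_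
  rw [e2]
  rfl

end alg

end Pool.Agent.Helper22.CG
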