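import Pool.Agent.Helper22.CG.C2
import Pool.Agent.Helper22.CG.C3

set_option linter.unusedSectionVars false
set_option linter.unusedVariables false

/-! The quotient group and the main inequality. -/

namespace Pool.Agent.Helper22.CG

open FreeGroup MonoidAlgebra

variable {m : ℕ}

/-- the map of group algebras induced by the quotient map -/
noncomputable def pr (N : Subgroup (FreeGroup (Fin m))) [N.Normal] :
    MonoidAlgebra ℝ (FreeGroup (Fin m)) →+* MonoidAlgebra ℝ (FreeGroup (Fin m) ⧸ N) :=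
  mapDomainRingHom ℝ (QuotientGroup.mk' N)

variable (N : Subgroup (FreeGroup (Fin m))) [hN : N.Normal]

lemma pr_single (w : FreeGroup (Fin m)) (r : ℝ) :
    pr N (single w r) = single (w : FreeGroup (Fin m) ⧸ N) r := by
  show mapDomain (QuotientGroup.mk' N) (single w r) = _
  rw [mapDomain_single]
  rfl

open Classical in
lemma pr_coeff (a : MonoidAlgebra ℝ (FreeGroup (Fin m))) :
    (pr N a).coeff 1 = ∑ v ∈ a.coeff.support with v ∈ N, a.coeff v := by
  show (Finsupp.mapDomain (QuotientGroup.mk' N) a.coeff) 1 = _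
  rw [Finsupp.mapDomain, Finsupp.sum, Finsupp.finsetSum_apply, Finset.sum_filter]
  apply Finset.sum_congr rfl
  intro v _
  rw [Finsupp.single_apply]
  have : (QuotientGroup.mk' N v = 1) ↔ v ∈ N := QuotientGroup.eq_one_iff v
  simp only [this]

lemma wp_inv (w : FreeGroup (Fin m)) : wp w⁻¹ = wp w := by
  funext i
  rw [wp, toWord_inv, wc_invRev]
  rfl

lemma sym_SF (k : Fin m → ℕ) : Sym (pr N (SF k)) := by
  intro a b
  rw [SF, map_sum, Finset.sum_mul, Finset.sum_mul, B_sum_left, B_comm a, B_sum_left]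
  refine Finset.sum_bij' (fun w _ => w⁻¹) (fun w _ => w⁻¹) ?_ ?_ ?_ ?_ ?_
  · intro w hw
    rw [Set.Finite.mem_toFinset] at hw ⊢
    show wp w⁻¹ = k
    rw [wp_inv]; exact hw
  · intro w hw
    rw [Set.Finite.mem_toFinset] at hw ⊢
    show wp w⁻¹ = k
    rw [wp_inv]; exact hw
  · intro w _; rw [inv_inv]
  · intro w _; rw [inv_inv]
  · intro w _
    rw [pr_single, pr_single, B_lmul, B_comm]
    rfl

/-- the sum of all letters -/
noncomputable def S1 (m : ℕ) : MonoidAlgebra ℝ (FreeGroup (Fin m)) :=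
  ∑ x : Fin m × Bool, single (mk [x]) 1

lemma mk_inv_letter (x : Fin m × Bool) : (mk [x])⁻¹ = mk [il x] := by
  rw [inv_mk]; rfl

lemma sym_S1 : Sym (pr N (S1 m)) := by
  intro a b
  rw [S1, map_sum, Finset.sum_mul, Finset.sum_mul, B_sum_left, B_comm a, B_sum_left]
  refine Finset.sum_bij' (fun w _ => il w) (fun w _ => il w) ?_ ?_ ?_ ?_ ?_
  · intro w _; exact Finset.mem_univ _
  · intro w _; exact Finset.mem_univ _
  · intro w _; exact il_il w
  · intro w _; exact il_il w
  · intro w _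
    rw [pr_single, pr_single, B_lmul, B_comm, ← mk_inv_letter]
    rfl

lemma D2 (hm : 2 ≤ m) (u0 : FreeGroup (Fin m)) (hu0 : u0 ∈ N) (hu1 : u0 ≠ 1) (k : Fin m → ℕ)
    (n : ℕ) :
    (pr N (SF k) ^ n).coeff 1 ≤ (Kc k : ℝ) ^ n * ((Kc (n • k) : ℝ) + 1) *
      ((ZZ N (n • k) (2 * n + 2 + u0.norm)).ncard : ℝ) := by
  classical
  rw [← map_pow, pr_coeff]
  set a := SF k ^ n with ha
  set s := a.coeff.support.filter (fun v => v ∈ N) with hs
  have hD := D1 hm k n
  have hJ : ∀ v : FreeGroup (Fin m), ∃ J : Fin m → ℕ, a.coeff v ≠ 0 →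
      ∀ i, wp v i + 2 * J i = n * k i := by
    intro v
    by_cases h : a.coeff v ≠ 0
    · obtain ⟨J, hJ⟩ := (hD v).2.1 h
      exact ⟨J, fun _ => hJ⟩
    · exact ⟨0, fun h' => absurd h' h⟩
  choose J hJ using hJ
  have hJ' : ∀ v ∈ s, ∀ i, wp v i + 2 * J v i = n * k i := by
    intro v hv
    rw [hs, Finset.mem_filter, Finsupp.mem_support_iff] at hv
    exact hJ v hv.1
  set Z := ((ZZ N (n • k) (2 * n + 2 + u0.norm)).ncard : ℝ) with hZ
  -- the term `v = 1`
  have hone : ∀ v ∈ s, v = 1 → a.coeff v ≤ (Kc k : ℝ) ^ n * Z := by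
    rintro v hv rfl
    refine ((hD 1).2.2 (J 1) (hJ' 1 hv)).trans ?_
    apply mul_le_mul_of_nonneg_left _ (by positivity)
    rw [hZ, Nat.cast_le]
    have h1 := inj2 hm N hN (J 1) (wp u0) n
    have h2 : 0 < ({v | v ∈ N ∧ v ≠ 1 ∧ wp v = wp u0} : Set (FreeGroup (Fin m))).ncard :=
      (Set.ncard_pos ((TT_fin (wp u0)).subset fun v hv => hv.2.2)).2 ⟨u0, hu0, hu1, rfl⟩
    have h3 : ZZ N (2 • J 1 + wp u0) (2 * n + 2) ⊆ ZZ N (n • k) (2 * n + 2 + u0.norm) := by
      rintro z ⟨hz1, hz2, hz3⟩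
      have h4 : ∀ i, 2 * J 1 i = n * k i := by
        intro i
        have := hJ' 1 hv i
        have h5 : wp (1 : FreeGroup (Fin m)) i = 0 := by simp [wp, wc]
        rw [h5, zero_add] at this
        exact this
      refine ⟨hz1, fun i => ?_, ?_⟩
      · have := hz2 i
        simp only [Pi.add_apply, Pi.smul_apply, smul_eq_mul, h4] at this ⊢
        omega
      · have h6 : ∑ i, (2 • J 1 + wp u0) i = ∑ i, (n • k) i + u0.norm := by
          rw [← sum_wp u0, ← Finset.sum_add_distrib]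
          apply Finset.sum_congr rfl
          intro i _
          simp only [Pi.add_apply, Pi.smul_apply, smul_eq_mul, h4]
        rw [h6] at hz3
        omega
    calc (AA (J 1) n).ncard ≤ (AA (J 1) n).ncard *
        ({v | v ∈ N ∧ v ≠ 1 ∧ wp v = wp u0} : Set (FreeGroup (Fin m))).ncard :=
          Nat.le_mul_of_pos_right _ h2
      _ ≤ _ := h1
      _ ≤ _ := Set.ncard_le_ncard h3 (ZZ_fin _ _ _)
  -- the other terms, grouped
  have hrest : ∑ v ∈ s.filter (fun v => v ≠ 1), a.coeff v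
      ≤ (Kc (n • k) : ℝ) * ((Kc k : ℝ) ^ n * Z) := by
    have hmaps : ∀ v ∈ s.filter (fun v => v ≠ 1), J v ∈ Finset.Iic (n • k) := by
      intro v hv
      rw [Finset.mem_Iic]
      intro i
      have := hJ' v (Finset.mem_filter.1 hv).1 i
      simp only [Pi.smul_apply, smul_eq_mul]
      omega
    rw [← Finset.sum_fiberwise_of_maps_to hmaps]
    have hterm : ∀ j ∈ Finset.Iic (n • k),
        (∑ v ∈ s.filter (fun v => v ≠ 1) with J v = j, a.coeff v) ≤ (Kc k : ℝ) ^ n * Z := by
      intro j _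
      by_cases hj : ∀ i, 2 * j i ≤ n * k i
      · have e1 : (∑ v ∈ s.filter (fun v => v ≠ 1) with J v = j, a.coeff v)
            ≤ ∑ v ∈ s.filter (fun v => v ≠ 1) with J v = j,
              (Kc k : ℝ) ^ n * ((AA j n).ncard : ℝ) := by
          apply Finset.sum_le_sum
          intro v hv
          rw [Finset.mem_filter, Finset.mem_filter] at hv
          apply (hD v).2.2 j
          intro i
          rw [← hv.2]
          exact hJ' v hv.1.1 i
        refine e1.trans ?_
        rw [Finset.sum_const, nsmul_eq_mul]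
        set l : Fin m → ℕ := fun i => n * k i - 2 * j i with hl
        have e2 : ((s.filter (fun v => v ≠ 1)).filter (fun v => J v = j)).card
            ≤ ({v | v ∈ N ∧ v ≠ 1 ∧ wp v = l} : Set (FreeGroup (Fin m))).ncard := by
          rw [← Set.ncard_coe_finset]
          apply Set.ncard_le_ncard
          · intro v hv
            rw [Finset.mem_coe, Finset.mem_filter, Finset.mem_filter] at hv
            refine ⟨(Finset.mem_filter.1 hv.1.1).2, hv.1.2, ?_⟩
            funext i
            have := hJ' v hv.1.1 i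
            rw [hv.2] at this
            simp only [hl]
            omega
          · exact (TT_fin l).subset fun v hv => hv.2.2
        have e3 := inj2 hm N hN j l n
        have e4 : 2 • j + l = n • k := by
          funext i
          simp only [Pi.add_apply, Pi.smul_apply, smul_eq_mul, hl]
          have := hj i
          omega
        rw [e4] at e3
        have e5 : ZZ N (n • k) (2 * n + 2) ⊆ ZZ N (n • k) (2 * n + 2 + u0.norm) := by
          rintro z ⟨hz1, hz2, hz3⟩
          exact ⟨hz1, hz2, by omega⟩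
        have e6 : ((s.filter (fun v => v ≠ 1)).filter (fun v => J v = j)).card * (AA j n).ncard
            ≤ (ZZ N (n • k) (2 * n + 2 + u0.norm)).ncard := by
          calc _ ≤ ({v | v ∈ N ∧ v ≠ 1 ∧ wp v = l} : Set (FreeGroup (Fin m))).ncard
                * (AA j n).ncard := Nat.mul_le_mul_right _ e2
            _ = _ := Nat.mul_comm _ _
            _ ≤ _ := e3
            _ ≤ _ := Set.ncard_le_ncard e5 (ZZ_fin _ _ _)
        have e7 : ((((s.filter (fun v => v ≠ 1)).filter (fun v => J v = j)).card : ℕ) : ℝ)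
            * ((AA j n).ncard : ℝ) ≤ Z := by
          rw [hZ]
          exact_mod_cast e6
        calc _ = (Kc k : ℝ) ^ n * (((((s.filter (fun v => v ≠ 1)).filter
              (fun v => J v = j)).card : ℕ) : ℝ) * ((AA j n).ncard : ℝ)) := by ring
          _ ≤ _ := mul_le_mul_of_nonneg_left e7 (by positivity)
      · have : (s.filter (fun v => v ≠ 1)).filter (fun v => J v = j) = ∅ := by
          rw [Finset.filter_eq_empty_iff]
          intro v hv hvj
          apply hj
          intro i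
          have := hJ' v (Finset.mem_filter.1 hv).1 i
          rw [hvj] at this
          omega
        rw [this, Finset.sum_empty]
        positivity
    refine (Finset.sum_le_sum hterm).trans ?_
    rw [Finset.sum_const, nsmul_eq_mul]
    rfl
  have hsplit : ∑ v ∈ s, a.coeff v = ∑ v ∈ s.filter (fun v => v ≠ 1), a.coeff v
      + ∑ v ∈ s.filter (fun v => ¬ v ≠ 1), a.coeff v :=
    (Finset.sum_filter_add_sum_filter_not s (fun v => v ≠ 1) _).symm
  have hlast : ∑ v ∈ s.filter (fun v => ¬ v ≠ 1), a.coeff v ≤ (Kc k : ℝ) ^ n * Z := by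
    have h1 : ∀ v ∈ s.filter (fun v => ¬ v ≠ 1), a.coeff v ≤ (Kc k : ℝ) ^ n * Z := by
      intro v hv
      rw [Finset.mem_filter, not_not] at hv
      exact hone v hv.1 hv.2
    have h2 : (s.filter (fun v => ¬ v ≠ 1)).card ≤ 1 := by
      rw [Finset.card_le_one]
      intro v hv w hw
      rw [Finset.mem_filter, not_not] at hv hw
      rw [hv.2, hw.2]
    have h3 := Finset.sum_le_card_nsmul _ _ _ h1
    refine h3.trans ?_
    rw [nsmul_eq_mul]
    have h4 : (((s.filter (fun v => ¬ v ≠ 1)).card : ℕ) : ℝ) ≤ 1 := by exact_mod_cast h2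
    have h5 : 0 ≤ (Kc k : ℝ) ^ n * Z := by positivity
    nlinarith
  rw [hsplit]
  calc _ ≤ (Kc (n • k) : ℝ) * ((Kc k : ℝ) ^ n * Z) + (Kc k : ℝ) ^ n * Z := add_le_add hrest hlast
    _ = _ := by ring

/-- almost invariance along words -/
lemma E_word (f : MonoidAlgebra ℝ (FreeGroup (Fin m) ⧸ N)) {θ : ℝ} (hθ : 0 ≤ θ)
    (h : ∀ x : Fin m × Bool, E f ((mk [x] : FreeGroup (Fin m)) : FreeGroup (Fin m) ⧸ N) ≤ θ)
    (l : List (Fin m × Bool)) :
    E f ((mk l : FreeGroup (Fin m)) : FreeGroup (Fin m) ⧸ N) ≤ 4 ^ l.length * θ := by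
  induction l with
  | nil =>
    have : ((mk [] : FreeGroup (Fin m)) : FreeGroup (Fin m) ⧸ N) = 1 := rfl
    rw [this, E_one]
    positivity
  | cons x l ih =>
    have e : ((mk (x :: l) : FreeGroup (Fin m)) : FreeGroup (Fin m) ⧸ N)
        = ((mk [x] : FreeGroup (Fin m)) : FreeGroup (Fin m) ⧸ N)
          * ((mk l : FreeGroup (Fin m)) : FreeGroup (Fin m) ⧸ N) := by
      rw [← QuotientGroup.mk_mul, mul_mk]; rfl
    rw [e]
    refine (E_mul f _ _).trans ?_
    have h1 : (1 : ℝ) ≤ 4 ^ l.length := one_le_pow₀ (by norm_num)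
    rw [List.length_cons, pow_succ]
    nlinarith [h x, mul_le_mul_of_nonneg_right h1 hθ]

lemma sum_E (f : MonoidAlgebra ℝ (FreeGroup (Fin m) ⧸ N)) :
    ∑ x : Fin m × Bool, E f ((mk [x] : FreeGroup (Fin m)) : FreeGroup (Fin m) ⧸ N)
      = 2 * (2 * m * B f f - B (pr N (S1 m) * f) f) := by
  have h1 : B (pr N (S1 m) * f) f
      = ∑ x : Fin m × Bool, B (single ((mk [x] : FreeGroup (Fin m)) : FreeGroup (Fin m) ⧸ N) 1
        * f) f := by
    rw [S1, map_sum, Finset.sum_mul, B_sum_left]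
    exact Finset.sum_congr rfl fun x _ => by rw [pr_single]
  rw [h1]
  simp only [E_eq, Finset.sum_sub_distrib, ← Finset.mul_sum, Finset.sum_const, Finset.card_univ,
    Fintype.card_prod, Fintype.card_fin, Fintype.card_bool, nsmul_eq_mul]
  push_cast
  ring

/-- the hypothesis of almost invariance, in terms of the quadratic form -/
def AlmostInv : Prop := ∀ s : ℝ, s < 2 * m → ∃ f : MonoidAlgebra ℝ (FreeGroup (Fin m) ⧸ N),
  s * B f f < B (pr N (S1 m) * f) f

lemma large_k (hA : AlmostInv N) (k : Fin m → ℕ) : ∃ κ : ℝ, 0 < κ ∧ ∀ j : ℕ, 1 ≤ j →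
    κ * (((TT k).ncard : ℝ) / 2) ^ (2 ^ j) ≤ (pr N (SF k) ^ (2 ^ j)).coeff 1 := by
  set R := ∑ i, k i with hR
  set δ : ℝ := (4 ^ R * 4)⁻¹ with hδ
  have hδ0 : 0 < δ := by positivity
  obtain ⟨f, hf⟩ := hA (2 * m - δ) (by linarith)
  have hBle : B (pr N (S1 m) * f) f ≤ 2 * m * B f f := by
    have := sum_E N f
    have h2 : 0 ≤ ∑ x : Fin m × Bool,
        E f ((mk [x] : FreeGroup (Fin m)) : FreeGroup (Fin m) ⧸ N) :=
      Finset.sum_nonneg fun _ _ => E_nonneg _ _
    linarith
  have hf0 : 0 < B f f := by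
    rcases (B_self_nonneg f).lt_or_eq with h | h
    · exact h
    · rw [← h] at hf hBle
      linarith
  have hx : ∀ x : Fin m × Bool, E f ((mk [x] : FreeGroup (Fin m)) : FreeGroup (Fin m) ⧸ N)
      ≤ 2 * δ * B f f := by
    intro x
    have h1 := Finset.single_le_sum (f := fun x : Fin m × Bool =>
      E f ((mk [x] : FreeGroup (Fin m)) : FreeGroup (Fin m) ⧸ N))
      (fun _ _ => E_nonneg _ _) (Finset.mem_univ x)
    rw [sum_E] at h1
    refine h1.trans ?_
    nlinarith
  have hw : ∀ w ∈ (TT_fin k).toFinset, (1 / 2) * B f f ≤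
      B (single (w : FreeGroup (Fin m) ⧸ N) 1 * f) f := by
    intro w hw
    rw [Set.Finite.mem_toFinset] at hw
    have h1 := E_word N f (θ := 2 * δ * B f f) (by positivity) hx w.toWord
    rw [mk_toWord] at h1
    have h2 : w.toWord.length = R := TT_norm hw
    rw [h2, E_eq] at h1
    have h3 : 4 ^ R * (2 * δ * B f f) = (1 / 2) * B f f := by
      rw [hδ]; field_simp; ring
    rw [h3] at h1
    linarith
  have hkey : (((TT k).ncard : ℝ) / 2) * B f f ≤ B (pr N (SF k) * f) f := by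
    rw [SF, map_sum, Finset.sum_mul, B_sum_left]
    calc (((TT k).ncard : ℝ) / 2) * B f f
        = ∑ w ∈ (TT_fin k).toFinset, (1 / 2) * B f f := by
          rw [Finset.sum_const, nsmul_eq_mul, Set.ncard_eq_toFinset_card _ (TT_fin k)]
          ring
      _ ≤ _ := by
          apply Finset.sum_le_sum
          intro w hw'
          rw [pr_single]
          exact hw w hw'
  exact large (sym_SF N k) (by positivity) hf0 hkey

/-- the main inequality -/
lemma mainIneq (hm : 2 ≤ m) (hA : AlmostInv N) (u0 : FreeGroup (Fin m)) (hu0 : u0 ∈ N)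
    (hu1 : u0 ≠ 1) (k : Fin m → ℕ) : ∃ κ : ℝ, 0 < κ ∧ ∀ j : ℕ, 1 ≤ j →
    κ * (((TT k).ncard : ℝ) / 2) ^ (2 ^ j) ≤ (Kc k : ℝ) ^ (2 ^ j) * ((Kc ((2 ^ j) • k) : ℝ) + 1) *
      ((ZZ N ((2 ^ j) • k) (2 * 2 ^ j + 2 + u0.norm)).ncard : ℝ) := by
  obtain ⟨κ, hκ, h⟩ := large_k N hA k
  exact ⟨κ, hκ, fun j hj => (h j hj).trans (D2 N hm u0 hu0 hu1 k (2 ^ j))⟩

/-- large return probabilities give almost invariance -/
lemma almostInv_of (hm : 2 ≤ m) (hW : ∀ s : ℝ, 0 < s → s < 2 * m → ∀ C : ℝ, ∃ n : ℕ,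
    C * s ^ n < (pr N (S1 m) ^ n).coeff 1)
    (hnn : ∀ n : ℕ, 0 ≤ (pr N (S1 m) ^ n).coeff 1) : AlmostInv N := by
  intro s' hs'
  by_contra hcon'
  push Not at hcon'
  have hm' : (2 : ℝ) ≤ m := by exact_mod_cast hm
  set s : ℝ := max s' m with hsdef
  have hs0 : 0 < s := lt_of_lt_of_le (by linarith) (le_max_right _ _)
  have hs : s < 2 * m := max_lt hs' (by linarith)
  have hcon : ∀ f : MonoidAlgebra ℝ (FreeGroup (Fin m) ⧸ N),
      B (pr N (S1 m) * f) f ≤ s * B f f := fun f =>
    (hcon' f).trans (mul_le_mul_of_nonneg_right (le_max_left _ _) (B_self_nonneg f))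
  have h1 := small (sym_S1 N) hs0.le hcon
  set M1 := (pr N (S1 m)).coeff 1 with hM1
  have hM1' : 0 ≤ M1 := by
    have := hnn 1
    rwa [pow_one] at this
  obtain ⟨n, hn⟩ := hW s hs0 hs ((M1 + s) / s)
  rcases Nat.even_or_odd' n with ⟨i, rfl | rfl⟩
  · have h2 := h1 i
    have h3 := hnn (2 * i + 1)
    have h4 : s * ((M1 + s) / s * s ^ (2 * i)) < s * (pr N (S1 m) ^ (2 * i)).coeff 1 :=
      mul_lt_mul_of_pos_left hn hs0
    have h5 : s * ((M1 + s) / s * s ^ (2 * i)) = s ^ (2 * i) * (M1 + s) := by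
      field_simp
    linarith
  · have h2 := h1 i
    have h3 := hnn (2 * i)
    have h5 : (M1 + s) / s * s ^ (2 * i + 1) = s ^ (2 * i) * (M1 + s) := by
      rw [pow_succ]; field_simp
    rw [h5] at hn
    have h6 : 0 ≤ s * (pr N (S1 m) ^ (2 * i)).coeff 1 := by positivity
    linarith

end Pool.Agent.Helper22.CG
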