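import Pool.Agent.Helper22.CG.C4

set_option linter.unusedSectionVars false
set_option linter.unusedVariables false

/-! From cogrowth to return probabilities. -/

namespace Pool.Agent.Helper22.CG

open FreeGroup MonoidAlgebra Filter Topology

variable {m : ℕ}

lemma S1_mul (a : MonoidAlgebra ℝ (FreeGroup (Fin m))) (v : FreeGroup (Fin m)) :
    (S1 m * a).coeff v = ∑ x : Fin m × Bool, a.coeff ((mk [x])⁻¹ * v) := by
  rw [S1, Finset.sum_mul, coeff_sum, Finsupp.finsetSum_apply]
  apply Finset.sum_congr rfl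
  intro w _
  rw [coeff_single_mul_apply, one_mul]

lemma S1_nonneg (n : ℕ) (v : FreeGroup (Fin m)) : 0 ≤ (S1 m ^ n).coeff v := by
  classical
  induction n generalizing v with
  | zero =>
    rw [pow_zero, one_def, coeff_single, Finsupp.single_apply]
    split_ifs <;> norm_num
  | succ n ih =>
    rw [pow_succ', S1_mul]
    exact Finset.sum_nonneg fun x _ => ih _

lemma norm_letter_same (x : Fin m × Bool) (t : List (Fin m × Bool)) (v : FreeGroup (Fin m))
    (hv : v.toWord = x :: t) : ((mk [x])⁻¹ * v).norm = t.length := by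
  have h1 : (mk [x] : FreeGroup (Fin m)).toWord = [x] ++ [] := by
    rw [toWord_mk_of IsReduced.singleton]; rfl
  have h2 : v.toWord = [x] ++ t := by rw [hv]; rfl
  have h3 := toWord_inv_mul h1 h2 (by simp)
  rw [FreeGroup.norm, h3]
  simp [invRev]

lemma norm_letter_other (x : Fin m × Bool) (v : FreeGroup (Fin m))
    (hv : ∀ y ∈ v.toWord.head?, x ≠ y) : ((mk [x])⁻¹ * v).norm = v.norm + 1 := by
  have h1 : (mk [x] : FreeGroup (Fin m)).toWord = [] ++ [x] := by
    rw [toWord_mk_of IsReduced.singleton]; rfl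
  have h2 : v.toWord = [] ++ v.toWord := rfl
  have h3 := toWord_inv_mul h1 h2 (by
    intro a ha b hb
    rw [List.head?_cons, Option.mem_def, Option.some.injEq] at ha
    subst ha
    exact hv b hb)
  rw [FreeGroup.norm, h3]
  simp [invRev, FreeGroup.norm]

/-- ballot numbers -/
def g (n : ℕ) : ℕ → ℝ
  | 0 => 1
  | k + 1 => (n.choose (k + 1) : ℝ) - (n.choose k : ℝ)

lemma g_pascal (n k : ℕ) : g (n + 1) (k + 1) = g n (k + 1) + g n k := by
  cases k with
  | zero =>
    simp only [g, zero_add, Nat.choose_zero_right, Nat.choose_one_right]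
    push_cast; ring
  | succ k =>
    simp only [g]
    rw [Nat.choose_succ_succ n (k + 1), Nat.choose_succ_succ n k]
    push_cast; ring

lemma coeff_lower (hm : 2 ≤ m) (n : ℕ) : ∀ (k : ℕ) (v : FreeGroup (Fin m)), n = v.norm + 2 * k →
    (2 * m - 1 : ℝ) ^ k * g n k ≤ (S1 m ^ n).coeff v := by
  classical
  have hm' : (2 : ℝ) ≤ m := by exact_mod_cast hm
  have hq : (0 : ℝ) ≤ 2 * m - 1 := by linarith
  induction n with
  | zero =>
    intro k v hk
    have h1 : v.norm = 0 := by omega
    have h2 : k = 0 := by omega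
    subst h2
    rw [FreeGroup.norm_eq_zero] at h1
    subst h1
    simp [g]
  | succ n ih =>
    intro k v hk
    rw [pow_succ', S1_mul]
    rcases hv : v.toWord with _ | ⟨y, t⟩
    · -- `v = 1`
      have hv1 : v = 1 := toWord_eq_nil_iff.1 hv
      have hnorm : v.norm = 0 := by rw [hv1]; simp
      rw [hnorm] at hk
      obtain ⟨k, rfl⟩ : ∃ k', k = k' + 1 := ⟨k - 1, by omega⟩
      have hterm : ∀ x : Fin m × Bool,
          (2 * m - 1 : ℝ) ^ k * g n k ≤ (S1 m ^ n).coeff ((mk [x])⁻¹ * v) := by
        intro x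
        apply ih k
        rw [norm_letter_other x v (by rw [hv]; simp), hnorm]
        omega
      have hsum : ∑ x : Fin m × Bool, (2 * m - 1 : ℝ) ^ k * g n k
          ≤ ∑ x : Fin m × Bool, (S1 m ^ n).coeff ((mk [x])⁻¹ * v) :=
        Finset.sum_le_sum fun x _ => hterm x
      rw [Finset.sum_const, Finset.card_univ, Fintype.card_prod, Fintype.card_fin,
        Fintype.card_bool, nsmul_eq_mul] at hsum
      refine le_trans ?_ hsum
      have hn : n = 2 * k + 1 := by omega
      have hg0 : g n (k + 1) = 0 := by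
        simp only [g]
        have : n.choose (k + 1) = n.choose k := by
          rw [hn]
          exact Nat.choose_symm_half k
        rw [this, sub_self]
      rw [g_pascal, hg0, zero_add, pow_succ]
      have hgn : 0 ≤ g n k := by
        cases k with
        | zero => simp [g]
        | succ k =>
          simp only [g]
          rw [sub_nonneg, Nat.cast_le]
          exact Nat.choose_le_succ_of_lt_half_left (by omega)
      have hp : 0 ≤ (2 * m - 1 : ℝ) ^ k * g n k := by positivity
      push_cast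
      nlinarith
    · have hnorm : v.norm = t.length + 1 := by
        rw [FreeGroup.norm, hv]; rfl
      rw [← Finset.add_sum_erase _ _ (Finset.mem_univ y)]
      have hfirst : (2 * m - 1 : ℝ) ^ k * g n k ≤ (S1 m ^ n).coeff ((mk [y])⁻¹ * v) := by
        apply ih k
        rw [norm_letter_same y t v hv]
        omega
      cases k with
      | zero =>
        have h0 : 0 ≤ ∑ x ∈ Finset.univ.erase y, (S1 m ^ n).coeff ((mk [x])⁻¹ * v) :=
          Finset.sum_nonneg fun x _ => S1_nonneg n _
        simp only [g, pow_zero, one_mul] at hfirst ⊢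
        linarith
      | succ k =>
        have hterm : ∀ x ∈ Finset.univ.erase y,
            (2 * m - 1 : ℝ) ^ k * g n k ≤ (S1 m ^ n).coeff ((mk [x])⁻¹ * v) := by
          intro x hx
          apply ih k
          rw [norm_letter_other x v (by
            intro z hz
            rw [hv, List.head?_cons, Option.mem_def, Option.some.injEq] at hz
            subst hz
            exact (Finset.mem_erase.1 hx).1)]
          omega
        have hsum := Finset.sum_le_sum hterm
        rw [Finset.sum_const, nsmul_eq_mul, Finset.card_erase_of_mem (Finset.mem_univ y),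
          Finset.card_univ, Fintype.card_prod, Fintype.card_fin, Fintype.card_bool] at hsum
        have hcast : ((m * 2 - 1 : ℕ) : ℝ) = 2 * m - 1 := by
          rw [Nat.cast_sub (by omega)]; push_cast; ring
        rw [hcast] at hsum
        rw [g_pascal]
        calc (2 * m - 1 : ℝ) ^ (k + 1) * (g n (k + 1) + g n k)
            = (2 * m - 1 : ℝ) ^ (k + 1) * g n (k + 1)
              + (2 * m - 1 : ℝ) * ((2 * m - 1 : ℝ) ^ k * g n k) := by ring
          _ ≤ _ := add_le_add hfirst hsum

variable (N : Subgroup (FreeGroup (Fin m))) [hN : N.Normal]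

lemma ret_nonneg (n : ℕ) : 0 ≤ (pr N (S1 m) ^ n).coeff 1 := by
  rw [← map_pow, pr_coeff]
  exact Finset.sum_nonneg fun v _ => S1_nonneg n v

/-- elements of `N` of a given length -/
def NR (R : ℕ) : Set (FreeGroup (Fin m)) := {w | w ∈ N ∧ w.norm = R}

lemma NR_fin (R : ℕ) : (NR N R).Finite := (finite_norm R).subset fun w hw => hw.2.le

lemma ret_lower (hm : 2 ≤ m) (R k : ℕ) :
    ((NR N R).ncard : ℝ) * ((2 * m - 1 : ℝ) ^ k * g (R + 2 * k) k)
      ≤ (pr N (S1 m) ^ (R + 2 * k)).coeff 1 := by
  classical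
  rw [← map_pow, pr_coeff]
  set a := S1 m ^ (R + 2 * k) with ha
  have h1 : ∑ v ∈ (NR_fin N R).toFinset, a.coeff v
      ≤ ∑ v ∈ a.coeff.support with v ∈ N, a.coeff v := by
    rw [← Finset.sum_filter_ne_zero]
    apply Finset.sum_le_sum_of_subset_of_nonneg
    · intro v hv
      rw [Finset.mem_filter, Set.Finite.mem_toFinset] at hv
      rw [Finset.mem_filter, Finsupp.mem_support_iff]
      exact ⟨hv.2, hv.1.1⟩
    · intro v _ _
      exact S1_nonneg _ v
  refine le_trans ?_ h1
  have h2 : ∀ v ∈ (NR_fin N R).toFinset,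
      (2 * m - 1 : ℝ) ^ k * g (R + 2 * k) k ≤ a.coeff v := by
    intro v hv
    rw [Set.Finite.mem_toFinset] at hv
    exact coeff_lower hm _ k v (by rw [hv.2])
  have h3 := Finset.sum_le_sum h2
  rw [Finset.sum_const, nsmul_eq_mul, ← Set.ncard_eq_toFinset_card _ (NR_fin N R)] at h3
  exact h3

lemma g_lower (n k : ℕ) (h : 2 * k ≤ n) : (n.choose k : ℝ) ≤ (n + 1) * g n k := by
  cases k with
  | zero => simp [g]
  | succ k =>
    simp only [g]
    have h1 := Nat.choose_succ_right_eq n k
    have h2 : ((n.choose (k + 1) : ℕ) : ℝ) * (k + 1) = (n.choose k : ℝ) * ((n : ℝ) - k) := by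
      have h3 : ((n.choose (k + 1) * (k + 1) : ℕ) : ℝ) = ((n.choose k * (n - k) : ℕ) : ℝ) := by
        rw [h1]
      rw [Nat.cast_mul, Nat.cast_mul, Nat.cast_sub (by omega)] at h3
      push_cast at h3
      exact h3
    have h4 : (n.choose k : ℝ) ≤ (n.choose (k + 1) : ℝ) := by
      rw [Nat.cast_le]
      exact Nat.choose_le_succ_of_lt_half_left (by omega)
    have h5 : (2 * ((k : ℝ) + 1)) ≤ n := by exact_mod_cast h
    have h6 : (0 : ℝ) ≤ n.choose (k + 1) := by positivity
    have h7 : (0 : ℝ) ≤ k := by positivity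
    nlinarith

/-- the maximal term of the binomial sum -/
lemma max_term (q n k : ℕ) (hk : k ≤ n) (h1 : k * q ≤ n - k + 1) (h2 : n - k ≤ (k + 1) * q) :
    ((q + 1 : ℕ) : ℝ) ^ n ≤ (n + 1) * ((n.choose k : ℝ) * (q : ℝ) ^ (n - k)) := by
  have hstep : ∀ j, j < n → (n.choose (j + 1) * q ^ (n - (j + 1))) * ((j + 1) * q)
      = (n.choose j * q ^ (n - j)) * (n - j) := by
    intro j hj
    have e1 := Nat.choose_succ_right_eq n j
    have e2 : n - j = (n - (j + 1)) + 1 := by omega
    calc (n.choose (j + 1) * q ^ (n - (j + 1))) * ((j + 1) * q)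
        = (n.choose (j + 1) * (j + 1)) * (q ^ (n - (j + 1)) * q) := by ring
      _ = (n.choose j * (n - j)) * q ^ (n - j) := by rw [e1, ← pow_succ, ← e2]
      _ = _ := by ring
  have hup : ∀ j, k ≤ j → j ≤ n → n.choose j * q ^ (n - j) ≤ n.choose k * q ^ (n - k) := by
    intro j hj
    induction j, hj using Nat.le_induction with
    | base => intro _; exact le_rfl
    | succ j hj ih =>
      intro hjn
      refine le_trans ?_ (ih (by omega))
      have e1 := hstep j (by omega)
      have e2 : n - j ≤ (j + 1) * q := by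
        calc n - j ≤ n - k := by omega
          _ ≤ (k + 1) * q := h2
          _ ≤ (j + 1) * q := Nat.mul_le_mul_right _ (by omega)
      have e3 : 0 < n - j := by omega
      have e4 : (n.choose (j + 1) * q ^ (n - (j + 1))) * (n - j)
          ≤ (n.choose j * q ^ (n - j)) * (n - j) := by
        rw [← e1]
        exact Nat.mul_le_mul_left _ e2
      exact Nat.le_of_mul_le_mul_right e4 e3
  have hdown : ∀ d, d ≤ k → n.choose (k - d) * q ^ (n - (k - d)) ≤ n.choose k * q ^ (n - k) := by
    intro d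
    induction d with
    | zero => intro _; exact le_rfl
    | succ d ih =>
      intro hd
      refine le_trans ?_ (ih (by omega))
      have e1 := hstep (k - (d + 1)) (by omega)
      have e0 : k - (d + 1) + 1 = k - d := by omega
      rw [e0] at e1
      have e2 : (k - d) * q ≤ n - (k - (d + 1)) := by
        calc (k - d) * q ≤ k * q := Nat.mul_le_mul_right _ (by omega)
          _ ≤ n - k + 1 := h1
          _ ≤ _ := by omega
      have e3 : 0 < n - (k - (d + 1)) := by omega
      have e4 : (n.choose (k - (d + 1)) * q ^ (n - (k - (d + 1)))) * (n - (k - (d + 1)))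
          ≤ (n.choose (k - d) * q ^ (n - (k - d))) * (n - (k - (d + 1))) := by
        rw [← e1]
        exact Nat.mul_le_mul_left _ e2
      exact Nat.le_of_mul_le_mul_right e4 e3
  have hall : ∀ j, j ≤ n → n.choose j * q ^ (n - j) ≤ n.choose k * q ^ (n - k) := by
    intro j hj
    rcases le_total k j with h | h
    · exact hup j h hj
    · have := hdown (k - j) (by omega)
      have e : k - (k - j) = j := by omega
      rwa [e] at this
  have hnat : (q + 1) ^ n ≤ (n + 1) * (n.choose k * q ^ (n - k)) := by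
    rw [add_comm q 1, add_pow]
    calc ∑ j ∈ Finset.range (n + 1), 1 ^ j * q ^ (n - j) * n.choose j
        ≤ ∑ j ∈ Finset.range (n + 1), n.choose k * q ^ (n - k) := by
          apply Finset.sum_le_sum
          intro j hj
          rw [Finset.mem_range] at hj
          have := hall j (by omega)
          rw [one_pow, one_mul, mul_comm]
          exact this
      _ = _ := by rw [Finset.sum_const, Finset.card_range, smul_eq_mul]
  exact_mod_cast hnat

/-- polynomial against exponential -/
lemma poly_exp (p : ℕ) (ρ : ℝ) (hρ : 1 < ρ) (C : ℝ) : ∀ᶠ n : ℕ in atTop,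
    C * ((n : ℝ) + 1) ^ p < ρ ^ n := by
  have h1 : Tendsto (fun n : ℕ => (n : ℝ) ^ p / ρ ^ n) atTop (𝓝 0) :=
    tendsto_pow_const_div_const_pow_of_one_lt p hρ
  have h2 := h1.const_mul (2 ^ p * |C|)
  rw [mul_zero] at h2
  filter_upwards [h2.eventually_lt_const one_pos, eventually_ge_atTop 1] with n hn hn1
  have h3 : 0 < ρ ^ n := by positivity
  have h4 : 2 ^ p * |C| * (n : ℝ) ^ p < ρ ^ n := by
    rw [← mul_div_assoc, div_lt_one h3] at hn
    exact hn
  have h5 : ((n : ℝ) + 1) ^ p ≤ (2 * n) ^ p := by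
    apply pow_le_pow_left₀ (by positivity)
    have : (1 : ℝ) ≤ n := by exact_mod_cast hn1
    linarith
  calc C * ((n : ℝ) + 1) ^ p ≤ |C| * ((n : ℝ) + 1) ^ p :=
        mul_le_mul_of_nonneg_right (le_abs_self C) (by positivity)
    _ ≤ |C| * (2 * n) ^ p := mul_le_mul_of_nonneg_left h5 (abs_nonneg C)
    _ = 2 ^ p * |C| * (n : ℝ) ^ p := by rw [mul_pow]; ring
    _ < _ := h4

/-- large cogrowth gives almost invariance -/
lemma almostInv_cogrowth (hm : 2 ≤ m) (hG : ∀ ε : ℝ, 0 < ε → ∃ᶠ R : ℕ in atTop,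
    (2 * m - 1 : ℝ) ^ R * Real.exp (-(ε * R)) ≤ ((NR N R).ncard : ℝ)) : AlmostInv N := by
  have hm' : (2 : ℝ) ≤ m := by exact_mod_cast hm
  apply almostInv_of N hm _ (ret_nonneg N)
  intro s hs0 hs C
  set ε : ℝ := Real.log (2 * m / s) / 2 with hε
  have hlog : 0 < Real.log (2 * m / s) := Real.log_pos (by rw [lt_div_iff₀ hs0]; linarith)
  have hε0 : 0 < ε := by positivity
  set ρ : ℝ := Real.exp ε with hρ
  have hρ1 : 1 < ρ := Real.one_lt_exp_iff.2 hε0
  have hρs : ρ * ρ * s = 2 * m := by
    rw [hρ, ← Real.exp_add, hε, add_halves, Real.exp_log (by positivity)]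
    field_simp
  obtain ⟨n0, hn0⟩ := Filter.eventually_atTop.1 (poly_exp 2 ρ hρ1 (max C 0 + 1))
  obtain ⟨R, hR0, hR⟩ := (Filter.frequently_atTop.1 (hG ε hε0)) n0
  -- choose `k`
  set q : ℕ := 2 * m - 1 with hq
  have hqr : (q : ℝ) = 2 * m - 1 := by
    rw [hq, Nat.cast_sub (by omega)]; push_cast; ring
  set k : ℕ := (R + 1) / (q - 1) with hk
  have hq2 : 2 ≤ q - 1 := by omega
  have hk1 : k * (q - 1) ≤ R + 1 := Nat.div_mul_le_self _ _
  have hk2 : R + 1 < (k + 1) * (q - 1) := by
    have := Nat.lt_div_mul_add (a := R + 1) (b := q - 1) (by omega)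
    rw [← hk] at this
    rw [add_mul, one_mul]
    exact this
  set n : ℕ := R + 2 * k with hn
  have hkq : k * q = k * (q - 1) + k := by
    obtain ⟨q', hq'⟩ : ∃ q', q = q' + 1 := ⟨q - 1, by omega⟩
    rw [hq', Nat.add_sub_cancel]; ring
  have hkq1 : (k + 1) * q = (k + 1) * (q - 1) + (k + 1) := by
    obtain ⟨q', hq'⟩ : ∃ q', q = q' + 1 := ⟨q - 1, by omega⟩
    rw [hq', Nat.add_sub_cancel]; ring
  have hmt := max_term q n k (by omega) (by rw [hkq]; omega) (by rw [hkq1]; omega)
  have hgl := g_lower n k (by omega)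
  have hret := ret_lower N hm R k
  rw [← hn] at hret
  refine ⟨n, ?_⟩
  have hnk : n - k = R + k := by omega
  rw [hnk] at hmt
  have hq1 : ((q + 1 : ℕ) : ℝ) = 2 * m := by push_cast; rw [hqr]; ring
  rw [hq1, hqr] at hmt
  have hqpos : (0 : ℝ) < 2 * m - 1 := by linarith
  -- combine
  have hW : (2 * m : ℝ) ^ n * Real.exp (-(ε * R)) ≤ (n + 1) ^ 2 * (pr N (S1 m) ^ n).coeff 1 := by
    calc (2 * m : ℝ) ^ n * Real.exp (-(ε * R))
        ≤ (n + 1) * ((n.choose k : ℝ) * (2 * m - 1 : ℝ) ^ (R + k)) * Real.exp (-(ε * R)) :=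
          mul_le_mul_of_nonneg_right hmt (Real.exp_pos _).le
      _ ≤ (n + 1) * (((n + 1) * g n k) * (2 * m - 1 : ℝ) ^ (R + k)) * Real.exp (-(ε * R)) := by
          apply mul_le_mul_of_nonneg_right _ (Real.exp_pos _).le
          apply mul_le_mul_of_nonneg_left _ (by positivity)
          exact mul_le_mul_of_nonneg_right hgl (by positivity)
      _ = (n + 1) ^ 2 * (((2 * m - 1 : ℝ) ^ R * Real.exp (-(ε * R)))
          * ((2 * m - 1 : ℝ) ^ k * g n k)) := by rw [pow_add]; ring
      _ ≤ (n + 1) ^ 2 * (((NR N R).ncard : ℝ) * ((2 * m - 1 : ℝ) ^ k * g n k)) := by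
          apply mul_le_mul_of_nonneg_left _ (by positivity)
          apply mul_le_mul_of_nonneg_right hR
          have : 0 ≤ g n k := by
            have h0 : (0 : ℝ) ≤ n.choose k := by positivity
            have h1 : (0 : ℝ) < n + 1 := by positivity
            by_contra hneg
            push Not at hneg
            nlinarith
          positivity
      _ ≤ _ := mul_le_mul_of_nonneg_left hret (by positivity)
  have hexp : Real.exp (-(ε * n)) ≤ Real.exp (-(ε * R)) := by
    apply Real.exp_le_exp.2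
    have : (R : ℝ) ≤ n := by
      rw [hn]; push_cast; linarith [Nat.cast_nonneg (α := ℝ) k]
    nlinarith
  have hρn : Real.exp (-(ε * n)) * ρ ^ n = 1 := by
    rw [hρ, ← Real.exp_nat_mul, ← Real.exp_add]
    simp [mul_comm]
  have h2m : (2 * m : ℝ) ^ n = ρ ^ n * ρ ^ n * s ^ n := by
    rw [← mul_pow, ← mul_pow, hρs]
  have hn0' := hn0 n (by omega)
  have hsn : 0 < s ^ n := by positivity
  have hfin : (max C 0 + 1) * (n + 1) ^ 2 * s ^ n < (n + 1) ^ 2 * (pr N (S1 m) ^ n).coeff 1 := by
    calc (max C 0 + 1) * (n + 1) ^ 2 * s ^ n < ρ ^ n * s ^ n := mul_lt_mul_of_pos_right hn0' hsn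
      _ = (2 * m : ℝ) ^ n * Real.exp (-(ε * n)) := by
          rw [h2m]
          calc ρ ^ n * s ^ n = (Real.exp (-(ε * n)) * ρ ^ n) * (ρ ^ n * s ^ n) := by
                rw [hρn, one_mul]
            _ = _ := by ring
      _ ≤ (2 * m : ℝ) ^ n * Real.exp (-(ε * R)) := mul_le_mul_of_nonneg_left hexp (by positivity)
      _ ≤ _ := hW
  have hcancel : (max C 0 + 1) * s ^ n < (pr N (S1 m) ^ n).coeff 1 := by
    have h1 : (0 : ℝ) < (n + 1) ^ 2 := by positivity
    have h2 : (n + 1 : ℝ) ^ 2 * ((max C 0 + 1) * s ^ n)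
        < (n + 1) ^ 2 * (pr N (S1 m) ^ n).coeff 1 := by
      calc _ = (max C 0 + 1) * (n + 1) ^ 2 * s ^ n := by ring
        _ < _ := hfin
    exact lt_of_mul_lt_mul_left h2 h1.le
  refine lt_of_le_of_lt ?_ hcancel
  apply mul_le_mul_of_nonneg_right _ hsn.le
  linarith [le_max_left C 0]

end Pool.Agent.Helper22.CG
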