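import Pool.Agent.Helper22.CG.C5

set_option linter.unusedSectionVars false
set_option linter.unusedVariables false

/-! Growth functions and the main theorem. -/

namespace Pool.Agent.Helper22.CG

open FreeGroup Filter Topology

open scoped ENNReal

variable {m : ℕ}

/-- the counting measure -/
noncomputable def nu (H : Subgroup (FreeGroup (Fin m))) (S : Set (Fin m → ℝ)) : ℝ≥0∞ :=
  ((({w | w ∈ H ∧ (fun i => (wp w i : ℝ)) ∈ S} : Set (FreeGroup (Fin m))).encard : ℕ∞) : ℝ≥0∞)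

/-- the `ℓ¹` norm -/
def l1 (x : Fin m → ℝ) : ℝ := ∑ i, |x i|

noncomputable def tau (H : Subgroup (FreeGroup (Fin m))) (C : Set (Fin m → ℝ)) : EReal :=
  limsup (fun R : ℝ => ENNReal.log (nu H ({x | R ≤ l1 x ∧ l1 x < R + 1} ∩ C)) / (R : EReal)) atTop

def IsOpenCone (C : Set (Fin m → ℝ)) : Prop :=
  IsOpen C ∧ ∀ x ∈ C, ∀ t : ℝ, 0 < t → t • x ∈ C

noncomputable def psi (H : Subgroup (FreeGroup (Fin m))) (r : Fin m → ℝ) : EReal :=
  ⨅ (C : Set (Fin m → ℝ)) (_ : IsOpenCone C ∧ r ∈ C), tau H C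

def MM (m : ℕ) : Set (Fin m → ℝ) := {r | (∀ i, 0 ≤ r i) ∧ ∑ i, r i = 1}

def cset (H : Subgroup (FreeGroup (Fin m))) (n : ℕ) (C : Set (Fin m → ℝ)) :
    Set (FreeGroup (Fin m)) := {w | w ∈ H ∧ w.norm = n ∧ (fun i => (wp w i : ℝ)) ∈ C}

lemma cset_fin (H : Subgroup (FreeGroup (Fin m))) (n : ℕ) (C : Set (Fin m → ℝ)) :
    (cset H n C).Finite := (finite_norm n).subset fun w hw => hw.2.1.le

lemma l1_wp (w : FreeGroup (Fin m)) : l1 (fun i => (wp w i : ℝ)) = w.norm := by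
  rw [l1, ← sum_wp]
  push_cast
  exact Finset.sum_congr rfl fun i _ => abs_of_nonneg (by positivity)

lemma nu_eq (H : Subgroup (FreeGroup (Fin m))) (C : Set (Fin m → ℝ)) (R : ℝ) (hR : 0 ≤ R) :
    nu H ({x | R ≤ l1 x ∧ l1 x < R + 1} ∩ C) = ((cset H ⌈R⌉₊ C).ncard : ℝ≥0∞) := by
  have h1 : {w : FreeGroup (Fin m) | w ∈ H ∧
      (fun i => (wp w i : ℝ)) ∈ ({x | R ≤ l1 x ∧ l1 x < R + 1} ∩ C)} = cset H ⌈R⌉₊ C := by
    ext w
    simp only [Set.mem_ofPred_eq, Set.mem_inter_iff, l1_wp, cset]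
    constructor
    · rintro ⟨h1, ⟨h2, h3⟩, h4⟩
      refine ⟨h1, ?_, h4⟩
      apply le_antisymm
      · have h5 := Nat.le_ceil R
        have h6 : (w.norm : ℝ) < (⌈R⌉₊ + 1 : ℕ) := by push_cast; linarith
        have h7 : w.norm < ⌈R⌉₊ + 1 := by exact_mod_cast h6
        omega
      · exact Nat.ceil_le.2 h2
    · rintro ⟨h1, h2, h3⟩
      refine ⟨h1, ⟨?_, ?_⟩, h3⟩
      · rw [h2]; exact Nat.le_ceil R
      · rw [h2]; exact Nat.ceil_lt_add_one hR
  rw [nu, h1, ← (cset_fin H ⌈R⌉₊ C).cast_ncard_eq]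
  rfl

lemma tau_ge (H : Subgroup (FreeGroup (Fin m))) (C : Set (Fin m → ℝ)) (a : ℝ)
    (h : ∃ᶠ n : ℕ in atTop, Real.exp (a * n) ≤ ((cset H n C).ncard : ℝ)) : (a : EReal) ≤ tau H C := by
  refine le_limsup_of_frequently_le ?_ (by isBoundedDefault)
  · rw [Filter.frequently_atTop] at h ⊢
    intro R0
    obtain ⟨n, hn, hn2⟩ := h (⌈R0⌉₊ + 1)
    refine ⟨n, ?_, ?_⟩
    · have := Nat.le_ceil R0
      have h2 : ((⌈R0⌉₊ + 1 : ℕ) : ℝ) ≤ n := by exact_mod_cast hn
      push_cast at h2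
      linarith
    · have hn0 : (0 : ℝ) < n := by
        have : 0 < n := by omega
        exact_mod_cast this
      rw [nu_eq H C n hn0.le, Nat.ceil_natCast,
        EReal.le_div_iff_mul_le (by exact_mod_cast hn0) (EReal.coe_ne_top _)]
      rw [← EReal.coe_mul]
      have h3 : ((a * n : ℝ) : EReal) = ENNReal.log (ENNReal.ofReal (Real.exp (a * n))) := by
        rw [ENNReal.log_ofReal_of_pos (Real.exp_pos _), Real.log_exp]
      rw [h3]
      apply ENNReal.log_monotone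
      calc ENNReal.ofReal (Real.exp (a * n)) ≤ ENNReal.ofReal ((cset H n C).ncard : ℝ) :=
            ENNReal.ofReal_le_ofReal hn2
        _ = _ := ENNReal.ofReal_natCast _

lemma tau_lt (H : Subgroup (FreeGroup (Fin m))) (C : Set (Fin m → ℝ)) (a : ℝ)
    (h : (a : EReal) < tau H C) :
    ∃ᶠ n : ℕ in atTop, Real.exp (a * n - |a|) ≤ ((cset H n C).ncard : ℝ) := by
  have h1 := frequently_lt_of_lt_limsup (by isBoundedDefault) h
  rw [Filter.frequently_atTop] at h1 ⊢
  intro n0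
  obtain ⟨R, hR, hR2⟩ := h1 (n0 + 1 : ℕ)
  have hR0 : 0 < R := by
    have : (0 : ℝ) < ((n0 + 1 : ℕ) : ℝ) := by positivity
    linarith
  refine ⟨⌈R⌉₊, ?_, ?_⟩
  · have h2 := Nat.le_ceil R
    have h3 : ((n0 + 1 : ℕ) : ℝ) ≤ ⌈R⌉₊ := by linarith
    have h4 : n0 + 1 ≤ ⌈R⌉₊ := by exact_mod_cast h3
    omega
  · rw [nu_eq H C R hR0.le, EReal.lt_div_iff (by exact_mod_cast hR0) (EReal.coe_ne_top _),
      ← EReal.coe_mul] at hR2
    have h3 : Real.exp (a * R) ≤ ((cset H ⌈R⌉₊ C).ncard : ℝ) := by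
      by_contra hcon
      push Not at hcon
      have h4 : ENNReal.log ((cset H ⌈R⌉₊ C).ncard : ℝ≥0∞) ≤ ((a * R : ℝ) : EReal) := by
        have h5 : ((a * R : ℝ) : EReal) = ENNReal.log (ENNReal.ofReal (Real.exp (a * R))) := by
          rw [ENNReal.log_ofReal_of_pos (Real.exp_pos _), Real.log_exp]
        rw [h5]
        apply ENNReal.log_monotone
        rw [← ENNReal.ofReal_natCast]
        exact ENNReal.ofReal_le_ofReal hcon.le
      exact absurd hR2 (not_lt.2 h4)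
    refine le_trans (Real.exp_le_exp.2 ?_) h3
    have h5 := Nat.le_ceil R
    have h6 := Nat.ceil_lt_add_one hR0.le
    rcases le_total 0 a with ha | ha
    · rw [abs_of_nonneg ha]
      nlinarith
    · rw [abs_of_nonpos ha]
      nlinarith

lemma Kc_pos (k : Fin m → ℕ) : 0 < Kc k := by
  rw [Kc, Finset.card_pos]
  exact ⟨k, Finset.mem_Iic.2 le_rfl⟩

lemma Kc_le (k : Fin m → ℕ) : (Kc k : ℝ) ≤ ((∑ i, k i : ℕ) + 1 : ℝ) ^ m := by
  have h1 : Kc k ≤ (∑ i, k i + 1) ^ m := by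
    rw [Kc, Pi.card_Iic]
    calc ∏ i, (Finset.Iic (k i)).card ≤ ∏ _i : Fin m, (∑ i, k i + 1) := by
          apply Finset.prod_le_prod'
          intro i _
          rw [Nat.card_Iic]
          have := Finset.single_le_sum (f := k) (fun _ _ => Nat.zero_le _) (Finset.mem_univ i)
          omega
      _ = _ := by simp
  exact_mod_cast h1

/-- pigeonhole over types -/
lemma exists_type (C : Set (Fin m → ℝ)) (R : ℕ) (X : ℝ) (hX : 0 < X)
    (h : X ≤ ((cset (⊤ : Subgroup (FreeGroup (Fin m))) R C).ncard : ℝ)) :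
    ∃ k : Fin m → ℕ, ∑ i, k i = R ∧ (fun i => (k i : ℝ)) ∈ C ∧
      X / ((R : ℝ) + 1) ^ m ≤ ((TT k).ncard : ℝ) := by
  classical
  set s := (cset_fin (⊤ : Subgroup (FreeGroup (Fin m))) R C).toFinset with hs
  set t : Finset (Fin m → ℕ) := Finset.Iic (fun _ => R) with ht
  have hcard : (t.card : ℝ) = ((R : ℝ) + 1) ^ m := by
    rw [ht, Pi.card_Iic]
    simp
  have hmaps : ∀ w ∈ s, wp w ∈ t := by
    intro w hw
    rw [hs, Set.Finite.mem_toFinset] at hw
    rw [ht, Finset.mem_Iic]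
    intro i
    have h1 := Finset.single_le_sum (f := wp w) (fun _ _ => Nat.zero_le _) (Finset.mem_univ i)
    rw [sum_wp, hw.2.1] at h1
    exact h1
  have hscard : (s.card : ℝ) = ((cset (⊤ : Subgroup (FreeGroup (Fin m))) R C).ncard : ℝ) := by
    rw [Set.ncard_eq_toFinset_card _ (cset_fin _ R C)]
  have htne : t.Nonempty := ⟨fun _ => R, Finset.mem_Iic.2 le_rfl⟩
  have htpos : (0 : ℝ) < ((R : ℝ) + 1) ^ m := by positivity
  obtain ⟨k, hk, hk2⟩ := Finset.exists_le_card_fiber_of_nsmul_le_card_of_maps_to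
    (b := X / ((R : ℝ) + 1) ^ m) hmaps htne (by
      rw [nsmul_eq_mul, hcard, mul_div_cancel₀ _ htpos.ne', hscard]
      exact h)
  have hpos : (0 : ℝ) < ((s.filter (fun w => wp w = k)).card : ℝ) :=
    lt_of_lt_of_le (by positivity) hk2
  have hpos' : 0 < (s.filter (fun w => wp w = k)).card := by exact_mod_cast hpos
  obtain ⟨w, hw⟩ := Finset.card_pos.1 hpos'
  rw [Finset.mem_filter, hs, Set.Finite.mem_toFinset] at hw
  obtain ⟨⟨_, hw2, hw3⟩, hwk⟩ := hw
  refine ⟨k, ?_, ?_, hk2.trans ?_⟩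
  · rw [← hwk, sum_wp, hw2]
  · rw [← hwk]; exact hw3
  · rw [Nat.cast_le, ← Set.ncard_coe_finset]
    apply Set.ncard_le_ncard _ (TT_fin k)
    intro v hv
    rw [Finset.mem_coe, Finset.mem_filter] at hv
    exact hv.2

variable (N : Subgroup (FreeGroup (Fin m))) [hN : N.Normal]

lemma main_ge (hm : 2 ≤ m) (hA : AlmostInv N) (u0 : FreeGroup (Fin m)) (hu0 : u0 ∈ N)
    (hu1 : u0 ≠ 1) (r : Fin m → ℝ) (hr : r ∈ MM m) (C : Set (Fin m → ℝ)) (hC : IsOpenCone C)
    (hrC : r ∈ C) : psi (⊤ : Subgroup (FreeGroup (Fin m))) r ≤ tau N C := by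
  classical
  apply le_of_forall_lt_imp_le_of_dense
  intro a0 ha0
  obtain ⟨a, ha0a, ha⟩ := EReal.lt_iff_exists_real_btwn.1 ha0
  refine ha0a.le.trans ?_
  obtain ⟨a', haa', ha'⟩ := EReal.lt_iff_exists_real_btwn.1 ha
  have haa'' : a < a' := by exact_mod_cast haa'
  obtain ⟨δ, hδ, hball⟩ := Metric.isOpen_iff.1 hC.1 r hrC
  set C' : Set (Fin m → ℝ) := {x | 0 < ∑ i, x i ∧
    ∀ i, |x i - r i * ∑ j, x j| < (δ / 2) * ∑ j, x j} with hC'
  have hC'cone : IsOpenCone C' ∧ r ∈ C' := by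
    refine ⟨⟨?_, ?_⟩, ?_, ?_⟩
    · have h1 : IsOpen {x : Fin m → ℝ | 0 < ∑ i, x i} :=
        isOpen_lt continuous_const (continuous_finsetSum _ fun i _ => continuous_apply i)
      have h2 : IsOpen (⋂ i, {x : Fin m → ℝ | |x i - r i * ∑ j, x j| < (δ / 2) * ∑ j, x j}) := by
        apply isOpen_iInter_of_finite
        intro i
        apply isOpen_lt
        · exact ((continuous_apply i).sub (continuous_const.mul
            (continuous_finsetSum _ fun i _ => continuous_apply i))).abs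
        · exact continuous_const.mul (continuous_finsetSum _ fun i _ => continuous_apply i)
      have h3 : C' = {x : Fin m → ℝ | 0 < ∑ i, x i} ∩
          (⋂ i, {x : Fin m → ℝ | |x i - r i * ∑ j, x j| < (δ / 2) * ∑ j, x j}) := by
        ext x; simp [hC']
      rw [h3]
      exact h1.inter h2
    · rintro x ⟨hx1, hx2⟩ t ht
      have h1 : ∑ i, (t • x) i = t * ∑ i, x i := by
        simp [Finset.mul_sum]
      refine ⟨by rw [h1]; positivity, fun i => ?_⟩
      rw [h1]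
      have h2 : (t • x) i - r i * (t * ∑ j, x j) = t * (x i - r i * ∑ j, x j) := by
        simp only [Pi.smul_apply, smul_eq_mul]; ring
      rw [h2, abs_mul, abs_of_pos ht]
      have := mul_lt_mul_of_pos_left (hx2 i) ht
      linarith
    · rw [hr.2]; exact one_pos
    · intro i
      rw [hr.2]
      simp
      exact hδ
  have hlt : (a' : EReal) < tau (⊤ : Subgroup (FreeGroup (Fin m))) C' :=
    lt_of_lt_of_le ha' (iInf₂_le C' hC'cone)
  have hfreq := tau_lt _ _ _ hlt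
  set c0 : ℕ := u0.norm with hc0
  -- choose `R`
  have hev1 := poly_exp (2 * m) (Real.exp (a' - a)) (Real.one_lt_exp_iff.2 (by linarith))
    (2 * Real.exp (|a'| + 2 * a))
  have hev2 : ∀ᶠ R : ℕ in atTop, (4 + c0 : ℝ) < (δ / 2) * R := by
    have : Tendsto (fun R : ℕ => (δ / 2) * (R : ℝ)) atTop atTop :=
      Tendsto.const_mul_atTop (by positivity) tendsto_natCast_atTop_atTop
    exact this.eventually_gt_atTop _
  obtain ⟨R, hR, hR1, hR2, hR3⟩ := (hfreq.and_eventually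
    (hev1.and (hev2.and (eventually_ge_atTop 1)))).exists
  obtain ⟨k, hk1, hk2, hk3⟩ := exists_type C' R _ (Real.exp_pos _) hR
  obtain ⟨κ, hκ, hmain⟩ := mainIneq N hm hA u0 hu0 hu1 k
  have hRpos : (1 : ℝ) ≤ R := by exact_mod_cast hR3
  -- the ratio
  have hKc := Kc_le k
  rw [hk1] at hKc
  have hKpos : (0 : ℝ) < Kc k := by exact_mod_cast Kc_pos k
  set L : ℝ := ((TT k).ncard : ℝ) / 2 / Kc k with hL
  have hLlow : Real.exp (a * (R + 2)) < L := by
    have h1 : Real.exp (a' - a) ^ R = Real.exp ((a' - a) * R) := by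
      rw [← Real.exp_nat_mul]; ring_nf
    rw [h1] at hR1
    have h2 : Real.exp (a' * R - |a'|) / ((R : ℝ) + 1) ^ m / 2 / ((R : ℝ) + 1) ^ m ≤ L := by
      rw [hL]
      have h3 : Real.exp (a' * R - |a'|) / ((R : ℝ) + 1) ^ m / 2 ≤ ((TT k).ncard : ℝ) / 2 := by
        linarith
      have h4 : (0 : ℝ) ≤ Real.exp (a' * R - |a'|) / ((R : ℝ) + 1) ^ m / 2 := by positivity
      exact div_le_div₀ (h4.trans h3) h3 hKpos hKc
    refine lt_of_lt_of_le ?_ h2
    have h5 : (0 : ℝ) < ((R : ℝ) + 1) ^ m := by positivity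
    rw [div_div, div_div, lt_div_iff₀ (by positivity)]
    have h6 : ((R : ℝ) + 1) ^ (2 * m) = ((R : ℝ) + 1) ^ m * ((R : ℝ) + 1) ^ m := by
      rw [← pow_add]; ring_nf
    rw [h6] at hR1
    have h7 : Real.exp (a' * R - |a'|) = Real.exp ((a' - a) * R) * Real.exp (a * R - |a'|) := by
      rw [← Real.exp_add]; ring_nf
    have h8 : Real.exp (a * (R + 2)) = Real.exp (|a'| + 2 * a) * Real.exp (a * R - |a'|) := by
      rw [← Real.exp_add]; ring_nf
    rw [h7, h8]
    have h9 := mul_lt_mul_of_pos_right hR1 (Real.exp_pos (a * R - |a'|))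
    calc _ = 2 * Real.exp (|a'| + 2 * a) * (((R : ℝ) + 1) ^ m * ((R : ℝ) + 1) ^ m)
          * Real.exp (a * R - |a'|) := by ring
      _ < _ := h9
  have hLpos : 0 < L := (Real.exp_pos _).trans hLlow
  -- apply the criterion
  apply tau_ge
  rw [Filter.frequently_atTop]
  intro ℓ0
  set lam : ℝ := L / Real.exp (a * (R + 2)) with hlam
  have hlam1 : 1 < lam := by rw [hlam, one_lt_div (Real.exp_pos _)]; exact hLlow
  have hev3 := poly_exp (m + 1) lam hlam1
    (2 * (R : ℝ) ^ m * (3 + c0) * Real.exp (|a| * (2 + c0)) / κ)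
  obtain ⟨n1, hn1⟩ := Filter.eventually_atTop.1 hev3
  obtain ⟨j, hj1, hj2⟩ : ∃ j : ℕ, 1 ≤ j ∧ max (max n1 ℓ0) 1 ≤ 2 ^ j :=
    ⟨max (max n1 ℓ0) 1, le_max_right _ _, Nat.lt_two_pow_self.le⟩
  set n : ℕ := 2 ^ j with hn
  have hnn1 : n1 ≤ n := (le_max_left _ _).trans ((le_max_left _ _).trans hj2)
  have hnℓ0 : ℓ0 ≤ n := (le_max_right _ _).trans ((le_max_left _ _).trans hj2)
  have hn1' : 1 ≤ n := (le_max_right _ _).trans hj2
  have hnpos : (1 : ℝ) ≤ n := by exact_mod_cast hn1'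
  have hpoly := hn1 n hnn1
  have hM := hmain j hj1
  rw [← hn] at hM
  set Z := ZZ N (n • k) (2 * n + 2 + u0.norm) with hZ
  have hsumnk : ∑ i, (n • k) i = n * R := by
    simp only [Pi.smul_apply, smul_eq_mul, ← Finset.mul_sum, hk1]
  -- lower bound for `#Z`
  have hZlow : κ * L ^ n ≤ 2 * (R : ℝ) ^ m * ((n : ℝ) + 1) ^ m * (Z.ncard : ℝ) := by
    have h1 : κ * L ^ n * (Kc k : ℝ) ^ n = κ * (((TT k).ncard : ℝ) / 2) ^ n := by
      rw [hL, div_pow (((TT k).ncard : ℝ) / 2)]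
      field_simp
    have h2 : κ * L ^ n * (Kc k : ℝ) ^ n
        ≤ (((Kc (n • k) : ℝ) + 1) * (Z.ncard : ℝ)) * (Kc k : ℝ) ^ n := by
      rw [h1]
      refine hM.trans (le_of_eq ?_)
      ring
    have h3 : κ * L ^ n ≤ ((Kc (n • k) : ℝ) + 1) * (Z.ncard : ℝ) :=
      le_of_mul_le_mul_right h2 (by positivity)
    refine h3.trans (mul_le_mul_of_nonneg_right ?_ (by positivity))
    have h4 := Kc_le (n • k)
    rw [hsumnk] at h4
    have h5 : (((n * R : ℕ) : ℝ) + 1) ^ m ≤ ((R : ℝ) * ((n : ℝ) + 1)) ^ m := by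
      apply pow_le_pow_left₀ (by positivity)
      push_cast
      nlinarith
    have h6 : (1 : ℝ) ≤ ((R : ℝ) * ((n : ℝ) + 1)) ^ m := one_le_pow₀ (by nlinarith)
    rw [mul_pow] at h5 h6
    linarith
  -- pigeonhole over lengths
  have hZcone : ∀ z ∈ Z, (fun i => (wp z i : ℝ)) ∈ C := by
    rintro z ⟨_, hz2, hz3⟩
    have hnR : (0 : ℝ) < n * R := by positivity
    have hmem : ((n * R : ℝ)⁻¹ • (fun i => (wp z i : ℝ))) ∈ C := by
      apply hball
      rw [Metric.mem_ball, dist_pi_lt_iff hδ]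
      intro i
      rw [Real.dist_eq]
      simp only [Pi.smul_apply, smul_eq_mul]
      have e1 : (n * R : ℝ)⁻¹ * (wp z i : ℝ) - r i
          = (n * R : ℝ)⁻¹ * ((wp z i : ℝ) - n * R * r i) := by field_simp
      rw [e1, abs_mul, abs_of_pos (inv_pos.2 hnR), inv_mul_lt_iff₀ hnR]
      have e2 : wp z i ≤ n * k i + (2 * n + 2 + c0) := by
        have h1 : ∀ j, n * k j ≤ wp z j := fun j => by simpa using hz2 j
        have h2 : ∑ j, wp z j ≤ (∑ j, n * k j) + (2 * n + 2 + c0) := by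
          rw [sum_wp]
          simpa using hz3
        have h3 : ∑ j ∈ Finset.univ.erase i, n * k j ≤ ∑ j ∈ Finset.univ.erase i, wp z j :=
          Finset.sum_le_sum fun j _ => h1 j
        rw [← Finset.add_sum_erase _ _ (Finset.mem_univ i),
          ← Finset.add_sum_erase _ (fun j => n * k j) (Finset.mem_univ i)] at h2
        omega
      have e3 : n * k i ≤ wp z i := by simpa using hz2 i
      have e2' : (wp z i : ℝ) ≤ n * k i + (2 * n + 2 + c0) := by exact_mod_cast e2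
      have e3' : (n * k i : ℝ) ≤ wp z i := by exact_mod_cast e3
      have e4 := hk2.2 i
      have e5 : ∑ j, (k j : ℝ) = R := by
        rw [← Nat.cast_sum, hk1]
      rw [e5] at e4
      rw [abs_lt] at e4 ⊢
      have e6 : (2 * n + 2 + c0 : ℝ) ≤ n * (4 + c0) := by
        have : (0 : ℝ) ≤ c0 := by positivity
        nlinarith
      have e7 : n * (4 + c0 : ℝ) < n * ((δ / 2) * R) := mul_lt_mul_of_pos_left hR2 (by linarith)
      have e8 := mul_lt_mul_of_pos_left e4.1 (show (0 : ℝ) < n by linarith)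
      have e9 := mul_lt_mul_of_pos_left e4.2 (show (0 : ℝ) < n by linarith)
      constructor
      · nlinarith
      · nlinarith
    have h2 := hC.2 _ hmem (n * R) hnR
    rw [smul_smul, mul_inv_cancel₀ hnR.ne', one_smul] at h2
    exact h2
  have hZfin : Z.Finite := ZZ_fin _ _ _
  set s := hZfin.toFinset with hs
  set t : Finset ℕ := Finset.Icc (n * R) (n * R + (2 * n + 2 + c0)) with ht
  have htcard : (t.card : ℝ) = 2 * n + 3 + c0 := by
    rw [ht, Nat.card_Icc]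
    have : n * R + (2 * n + 2 + c0) + 1 - n * R = 2 * n + 3 + c0 := by omega
    rw [this]; push_cast; ring
  have hmaps : ∀ z ∈ s, z.norm ∈ t := by
    intro z hz
    rw [hs, Set.Finite.mem_toFinset] at hz
    obtain ⟨_, hz2, hz3⟩ := hz
    rw [ht, Finset.mem_Icc]
    constructor
    · rw [← hsumnk, ← sum_wp]
      exact Finset.sum_le_sum fun i _ => hz2 i
    · rw [hsumnk] at hz3
      exact hz3
  have htne : t.Nonempty := ⟨n * R, by rw [ht, Finset.mem_Icc]; omega⟩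
  have hZcard : (Z.ncard : ℝ) = s.card := by
    rw [Set.ncard_eq_toFinset_card _ hZfin]
  have htpos : (0 : ℝ) < 2 * n + 3 + c0 := by positivity
  obtain ⟨ℓ, hℓ, hℓ2⟩ := Finset.exists_le_card_fiber_of_nsmul_le_card_of_maps_to
    (b := (Z.ncard : ℝ) / (2 * n + 3 + c0)) hmaps htne (by
      rw [nsmul_eq_mul, htcard, mul_div_cancel₀ _ htpos.ne', hZcard])
  rw [ht, Finset.mem_Icc] at hℓ
  refine ⟨ℓ, ?_, ?_⟩
  · calc ℓ0 ≤ n := hnℓ0
      _ ≤ n * R := Nat.le_mul_of_pos_right _ hR3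
      _ ≤ ℓ := hℓ.1
  · have hcard : ((s.filter (fun z => z.norm = ℓ)).card : ℝ) ≤ ((cset N ℓ C).ncard : ℝ) := by
      rw [Nat.cast_le, ← Set.ncard_coe_finset]
      apply Set.ncard_le_ncard _ (cset_fin N ℓ C)
      intro z hz
      rw [Finset.mem_coe, Finset.mem_filter, hs, Set.Finite.mem_toFinset] at hz
      exact ⟨hz.1.1, hz.2, hZcone z hz.1⟩
    have hlow : κ * L ^ n / (2 * (R : ℝ) ^ m * ((n : ℝ) + 1) ^ m * (2 * n + 3 + c0))
        ≤ ((cset N ℓ C).ncard : ℝ) := by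
      refine le_trans ?_ (hℓ2.trans hcard)
      rw [div_le_div_iff₀ (by positivity) htpos]
      calc κ * L ^ n * (2 * n + 3 + c0)
          ≤ (2 * (R : ℝ) ^ m * ((n : ℝ) + 1) ^ m * (Z.ncard : ℝ)) * (2 * n + 3 + c0) :=
            mul_le_mul_of_nonneg_right hZlow htpos.le
        _ = _ := by ring
    rcases le_total a 0 with ha0' | ha0'
    · have h1 : (0 : ℝ) < ((cset N ℓ C).ncard : ℝ) := lt_of_lt_of_le (by positivity) hlow
      have h2 : 1 ≤ (cset N ℓ C).ncard := by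
        have : 0 < (cset N ℓ C).ncard := by exact_mod_cast h1
        omega
      have h3 : (1 : ℝ) ≤ ((cset N ℓ C).ncard : ℝ) := by exact_mod_cast h2
      refine le_trans ?_ h3
      rw [Real.exp_le_one_iff]
      exact mul_nonpos_of_nonpos_of_nonneg ha0' (by positivity)
    · refine le_trans ?_ hlow
      rw [le_div_iff₀ (by positivity)]
      rw [abs_of_nonneg ha0'] at hpoly
      have hℓle : (ℓ : ℝ) ≤ n * (R + 2) + (2 + c0) := by
        have : (ℓ : ℝ) ≤ ((n * R + (2 * n + 2 + c0) : ℕ) : ℝ) := by exact_mod_cast hℓ.2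
        push_cast at this
        linarith
      have h1 : Real.exp (a * ℓ) ≤ Real.exp (a * (R + 2)) ^ n * Real.exp (a * (2 + c0)) := by
        rw [← Real.exp_nat_mul, ← Real.exp_add]
        apply Real.exp_le_exp.2
        have := mul_le_mul_of_nonneg_left hℓle ha0'
        linarith
      have h2 : lam ^ n * Real.exp (a * (R + 2)) ^ n = L ^ n := by
        rw [hlam, div_pow, div_mul_cancel₀ _ (by positivity)]
      have h3 : (2 * n + 3 + c0 : ℝ) ≤ (3 + c0) * ((n : ℝ) + 1) := by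
        have : (0 : ℝ) ≤ c0 := by positivity
        nlinarith
      have h4 : 2 * (R : ℝ) ^ m * (3 + c0) * Real.exp (a * (2 + c0)) * ((n : ℝ) + 1) ^ (m + 1)
          < κ * lam ^ n := by
        have := mul_lt_mul_of_pos_left hpoly hκ
        have e : κ * (2 * (R : ℝ) ^ m * (3 + c0) * Real.exp (a * (2 + c0)) / κ
          * ((n : ℝ) + 1) ^ (m + 1))
          = 2 * (R : ℝ) ^ m * (3 + c0) * Real.exp (a * (2 + c0)) * ((n : ℝ) + 1) ^ (m + 1) := by
          field_simp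
        rw [e] at this
        exact this
      calc Real.exp (a * ℓ) * (2 * (R : ℝ) ^ m * ((n : ℝ) + 1) ^ m * (2 * n + 3 + c0))
          ≤ (Real.exp (a * (R + 2)) ^ n * Real.exp (a * (2 + c0)))
            * (2 * (R : ℝ) ^ m * ((n : ℝ) + 1) ^ m * ((3 + c0) * ((n : ℝ) + 1))) := by
            apply mul_le_mul h1 _ (by positivity) (by positivity)
            exact mul_le_mul_of_nonneg_left h3 (by positivity)
        _ = (2 * (R : ℝ) ^ m * (3 + c0) * Real.exp (a * (2 + c0)) * ((n : ℝ) + 1) ^ (m + 1))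
            * Real.exp (a * (R + 2)) ^ n := by rw [pow_succ]; ring
        _ ≤ (κ * lam ^ n) * Real.exp (a * (R + 2)) ^ n :=
            mul_le_mul_of_nonneg_right h4.le (by positivity)
        _ = κ * L ^ n := by rw [mul_assoc, h2]

lemma psi_mono (H : Subgroup (FreeGroup (Fin m))) (r : Fin m → ℝ) :
    psi H r ≤ psi (⊤ : Subgroup (FreeGroup (Fin m))) r := by
  apply iInf₂_mono
  intro C _
  apply limsup_le_limsup
  · filter_upwards [eventually_gt_atTop 0] with R hR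
    apply EReal.div_le_div_right_of_nonneg (by exact_mod_cast hR.le)
    apply ENNReal.log_monotone
    rw [nu, nu]
    apply ENat.toENNReal_le.2
    apply Set.encard_le_encard
    rintro w ⟨_, h2⟩
    exact ⟨Subgroup.mem_top w, h2⟩
  · isBoundedDefault
  · isBoundedDefault

theorem main_eq (hm : 2 ≤ m) (hA : AlmostInv N) (u0 : FreeGroup (Fin m)) (hu0 : u0 ∈ N)
    (hu1 : u0 ≠ 1) (r : Fin m → ℝ) (hr : r ∈ MM m) :
    psi N r = psi (⊤ : Subgroup (FreeGroup (Fin m))) r := by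
  apply le_antisymm (psi_mono N r)
  apply le_iInf₂
  rintro C ⟨hC1, hC2⟩
  exact main_ge N hm hA u0 hu0 hu1 r hr C hC1 hC2

end Pool.Agent.Helper22.CG
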