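import Pool.Agent.Helper22.CG.C6

set_option linter.unusedSectionVars false
set_option linter.unusedVariables false

/-! The two questions. -/

namespace Pool.Agent.Helper22.CG

open FreeGroup MonoidAlgebra Filter Topology

open scoped commutatorElement

variable {m : ℕ}

/-- Q1 -/
theorem q1 (hm : 2 ≤ m) (N : Subgroup (FreeGroup (Fin m))) (hN : N.Normal)
    (r0 : Fin m → ℝ) (hr0 : psi N r0 = ((Real.log (2 * m - 1) : ℝ) : EReal))
    (r : Fin m → ℝ) (hr : r ∈ MM m) :
    psi N r = psi (⊤ : Subgroup (FreeGroup (Fin m))) r := by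
  have hm' : (2 : ℝ) ≤ m := by exact_mod_cast hm
  have hq1 : (1 : ℝ) < 2 * m - 1 := by linarith
  have hq0 : (0 : ℝ) < 2 * m - 1 := by linarith
  have hcone : IsOpenCone (Set.univ : Set (Fin m → ℝ)) ∧ r0 ∈ (Set.univ : Set (Fin m → ℝ)) :=
    ⟨⟨isOpen_univ, fun _ _ _ _ => Set.mem_univ _⟩, Set.mem_univ _⟩
  have h1 : psi N r0 ≤ tau N Set.univ := iInf₂_le Set.univ hcone
  rw [hr0] at h1
  have hG : ∀ ε : ℝ, 0 < ε → ∃ᶠ R : ℕ in atTop,
      (2 * m - 1 : ℝ) ^ R * Real.exp (-(ε * R)) ≤ ((NR N R).ncard : ℝ) := by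
    intro ε hε
    set a : ℝ := Real.log (2 * m - 1) - ε / 2 with ha
    have h2 : (a : EReal) < tau N Set.univ := by
      refine lt_of_lt_of_le ?_ h1
      rw [EReal.coe_lt_coe_iff, ha]
      linarith
    have h3 := tau_lt N Set.univ a h2
    have h4 : ∀ᶠ n : ℕ in atTop, |a| ≤ (ε / 2) * n := by
      have : Tendsto (fun n : ℕ => (ε / 2) * (n : ℝ)) atTop atTop :=
        Tendsto.const_mul_atTop (by positivity) tendsto_natCast_atTop_atTop
      exact this.eventually_ge_atTop _
    refine (h3.and_eventually h4).mono ?_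
    rintro n ⟨h5, h6⟩
    have h7 : cset N n Set.univ = NR N n := by
      ext w
      simp [cset, NR]
    rw [h7] at h5
    refine le_trans ?_ h5
    have h8 : (2 * m - 1 : ℝ) ^ n = Real.exp (n * Real.log (2 * m - 1)) := by
      rw [Real.exp_nat_mul, Real.exp_log hq0]
    rw [h8, ← Real.exp_add]
    apply Real.exp_le_exp.2
    rw [ha] at h6 ⊢
    linarith
  have hA := almostInv_cogrowth N hm hG
  obtain ⟨R, hR1, hR⟩ := (Filter.frequently_atTop.1 (hG 1 one_pos)) 1
  have h2 : (0 : ℝ) < ((NR N R).ncard : ℝ) := lt_of_lt_of_le (by positivity) hR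
  have h3 : 0 < (NR N R).ncard := by exact_mod_cast h2
  obtain ⟨u0, hu0⟩ := (Set.ncard_pos (NR_fin N R)).1 h3
  have hu1 : u0 ≠ 1 := by
    rintro rfl
    have := hu0.2
    rw [FreeGroup.norm_one] at this
    omega
  exact main_eq N hm hA u0 hu0.1 hu1 r hr

section ab

/-- the augmentation -/
noncomputable def aug {Γ : Type} [Group Γ] (a : MonoidAlgebra ℝ Γ) : ℝ :=
  a.coeff.sum (fun _ x => x)

lemma aug_add {Γ : Type} [Group Γ] (a b : MonoidAlgebra ℝ Γ) : aug (a + b) = aug a + aug b := by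
  rw [aug, coeff_add, Finsupp.sum_add_index']
  · rfl
  · intro g; rfl
  · intro g x y; rfl

lemma aug_single {Γ : Type} [Group Γ] (g : Γ) (r : ℝ) :
    aug (single g r : MonoidAlgebra ℝ Γ) = r := by
  rw [aug, coeff_single, Finsupp.sum_single_index]
  rfl

lemma aug_zero {Γ : Type} [Group Γ] : aug (0 : MonoidAlgebra ℝ Γ) = 0 := by
  simp [aug]

lemma aug_sum {Γ : Type} [Group Γ] {ι : Type} (s : Finset ι) (f : ι → MonoidAlgebra ℝ Γ) :
    aug (∑ i ∈ s, f i) = ∑ i ∈ s, aug (f i) := by
  classical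
  induction s using Finset.induction_on with
  | empty => simp [aug_zero]
  | insert i s hi ih => rw [Finset.sum_insert hi, Finset.sum_insert hi, aug_add, ih]

lemma aug_single_mul {Γ : Type} [Group Γ] (g : Γ) (a : MonoidAlgebra ℝ Γ) :
    aug (single g 1 * a) = aug a := by
  induction a using MonoidAlgebra.induction_linear with
  | zero => rw [mul_zero]
  | add a b ha hb => rw [mul_add, aug_add, aug_add, ha, hb]
  | single h r => rw [single_mul_single, one_mul, aug_single, aug_single]

lemma aug_pow (N : Subgroup (FreeGroup (Fin m))) [N.Normal] (n : ℕ) :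
    aug (pr N (S1 m) ^ n) = (2 * m : ℝ) ^ n := by
  have key : ∀ a : MonoidAlgebra ℝ (FreeGroup (Fin m) ⧸ N),
      aug (pr N (S1 m) * a) = 2 * m * aug a := by
    intro a
    rw [S1, map_sum, Finset.sum_mul, aug_sum]
    have : ∀ x ∈ (Finset.univ : Finset (Fin m × Bool)),
        aug (pr N (single (mk [x]) 1) * a) = aug a := by
      intro x _
      rw [pr_single, aug_single_mul]
    rw [Finset.sum_congr rfl this, Finset.sum_const, Finset.card_univ, Fintype.card_prod,
      Fintype.card_fin, Fintype.card_bool, nsmul_eq_mul]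
    push_cast
    ring
  induction n with
  | zero => rw [pow_zero, pow_zero, one_def, aug_single]
  | succ n ih => rw [pow_succ', pow_succ', key, ih]

lemma pr_S1_mul (N : Subgroup (FreeGroup (Fin m))) [N.Normal]
    (a : MonoidAlgebra ℝ (FreeGroup (Fin m) ⧸ N)) (v : FreeGroup (Fin m) ⧸ N) :
    (pr N (S1 m) * a).coeff v
      = ∑ x : Fin m × Bool, a.coeff (((mk [x] : FreeGroup (Fin m)) : FreeGroup (Fin m) ⧸ N)⁻¹ * v)
      := by
  conv_lhs => rw [S1, map_sum, Finset.sum_mul, coeff_sum, Finsupp.finsetSum_apply]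
  apply Finset.sum_congr rfl
  intro w _
  rw [pr_single, coeff_single_mul_apply, one_mul]

/-- in an abelian quotient the supports grow polynomially -/
lemma supp_card (N : Subgroup (FreeGroup (Fin m))) [N.Normal]
    (hcomm : ∀ x y : FreeGroup (Fin m) ⧸ N, x * y = y * x) (n : ℕ) :
    (pr N (S1 m) ^ n).coeff.support.card ≤ (2 * n + 1) ^ m := by
  classical
  letI : CommGroup (FreeGroup (Fin m) ⧸ N) :=
    { (inferInstance : Group (FreeGroup (Fin m) ⧸ N)) with mul_comm := hcomm }
  let A : Fin m → FreeGroup (Fin m) ⧸ N := fun i =>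
    ((mk [(i, true)] : FreeGroup (Fin m)) : FreeGroup (Fin m) ⧸ N)
  let φ : (Fin m → ℤ) → FreeGroup (Fin m) ⧸ N := fun z => ∏ i, A i ^ z i
  have hφadd : ∀ z w, φ (z + w) = φ z * φ w := by
    intro z w
    simp only [φ, Pi.add_apply, zpow_add, Finset.prod_mul_distrib]
  have hφsingle : ∀ i (c : ℤ), φ (Pi.single i c) = A i ^ c := by
    intro i c
    simp only [φ]
    rw [Fintype.prod_eq_single i]
    · rw [Pi.single_eq_same]
    · intro j hj
      rw [Pi.single_eq_of_ne hj, zpow_zero]
  have key : ∀ n : ℕ, ∀ g, (pr N (S1 m) ^ n).coeff g ≠ 0 →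
      ∃ z : Fin m → ℤ, (∀ i, |z i| ≤ n) ∧ g = φ z := by
    intro n
    induction n with
    | zero =>
      intro g hg
      refine ⟨0, fun i => by simp, ?_⟩
      rw [pow_zero, one_def, coeff_single, Finsupp.single_apply] at hg
      have : (1 : FreeGroup (Fin m) ⧸ N) = g := by
        by_contra h
        rw [if_neg h] at hg
        exact hg rfl
      rw [← this]
      simp [φ]
    | succ n ih =>
      intro g hg
      rw [pow_succ', pr_S1_mul] at hg
      obtain ⟨x, _, hx⟩ := Finset.exists_ne_zero_of_sum_ne_zero hg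
      obtain ⟨z, hz, hz2⟩ := ih _ hx
      obtain ⟨i, b⟩ := x
      have hg2 : g = ((mk [(i, b)] : FreeGroup (Fin m)) : FreeGroup (Fin m) ⧸ N) * φ z := by
        rw [← hz2, mul_inv_cancel_left]
      have hletter : ∃ c : ℤ, |c| ≤ 1 ∧
          ((mk [(i, b)] : FreeGroup (Fin m)) : FreeGroup (Fin m) ⧸ N) = A i ^ c := by
        cases b with
        | true => exact ⟨1, by simp, (zpow_one _).symm⟩
        | false =>
          refine ⟨-1, by simp, ?_⟩
          rw [zpow_neg_one]
          show _ = (((mk [(i, true)] : FreeGroup (Fin m)) : FreeGroup (Fin m) ⧸ N))⁻¹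
          rw [← QuotientGroup.mk_inv, mk_inv_letter]
          rfl
      obtain ⟨c, hc, hc2⟩ := hletter
      refine ⟨Pi.single i c + z, fun j => ?_, ?_⟩
      · simp only [Pi.add_apply]
        have h1 : |(Pi.single i c : Fin m → ℤ) j| ≤ 1 := by
          by_cases h : j = i
          · subst h; rw [Pi.single_eq_same]; exact hc
          · rw [Pi.single_eq_of_ne h]; simp
        have h2 := abs_add_le ((Pi.single i c : Fin m → ℤ) j) (z j)
        have h3 := hz j
        push_cast
        linarith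
      · rw [hφadd, hφsingle, hg2, hc2]
  have hsub : (pr N (S1 m) ^ n).coeff.support
      ⊆ (Fintype.piFinset (fun _ : Fin m => Finset.Icc (-(n : ℤ)) n)).image φ := by
    intro g hg
    rw [Finsupp.mem_support_iff] at hg
    obtain ⟨z, hz, hz2⟩ := key n g hg
    rw [Finset.mem_image]
    refine ⟨z, ?_, hz2.symm⟩
    rw [Fintype.mem_piFinset]
    intro i
    rw [Finset.mem_Icc]
    exact abs_le.1 (hz i)
  calc _ ≤ ((Fintype.piFinset (fun _ : Fin m => Finset.Icc (-(n : ℤ)) n)).image φ).card :=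
        Finset.card_le_card hsub
    _ ≤ (Fintype.piFinset (fun _ : Fin m => Finset.Icc (-(n : ℤ)) n)).card := Finset.card_image_le
    _ = (2 * n + 1) ^ m := by
        rw [Fintype.card_piFinset]
        simp only [Int.card_Icc, Finset.prod_const, Finset.card_univ, Fintype.card_fin]
        congr 1
        omega

lemma almostInv_comm (hm : 2 ≤ m) (N : Subgroup (FreeGroup (Fin m))) [N.Normal]
    (hcomm : ∀ x y : FreeGroup (Fin m) ⧸ N, x * y = y * x) : AlmostInv N := by
  have hm' : (2 : ℝ) ≤ m := by exact_mod_cast hm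
  apply almostInv_of N hm _ (ret_nonneg N)
  intro s hs0 hs C
  have hrat : 1 < (2 * m / s) := by rw [one_lt_div hs0]; exact hs
  have hρ : 1 < (2 * m / s) ^ 2 := by
    have := one_lt_pow₀ hrat (n := 2) (by norm_num)
    exact this
  obtain ⟨n, hn⟩ := (poly_exp m _ hρ (2 ^ m * (max C 0))).exists
  refine ⟨n + n, ?_⟩
  rw [← moment (sym_S1 N)]
  set a := pr N (S1 m) ^ n with ha
  have h1 : (aug a) ^ 2 ≤ (a.coeff.support.card : ℝ) * B a a := by
    have h2 := Finset.sum_mul_sq_le_sq_mul_sq a.coeff.support (fun _ => (1 : ℝ))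
      (fun g => a.coeff g)
    simp only [one_mul, one_pow, Finset.sum_const, nsmul_eq_mul, mul_one] at h2
    have h3 : B a a = ∑ g ∈ a.coeff.support, a.coeff g ^ 2 := by
      rw [B, Finsupp.sum]
      exact Finset.sum_congr rfl fun g _ => (pow_two _).symm
    rw [h3]
    exact h2
  rw [ha, aug_pow, ← ha] at h1
  have h2 := supp_card N hcomm n
  rw [← ha] at h2
  have h3 : (a.coeff.support.card : ℝ) ≤ 2 ^ m * ((n : ℝ) + 1) ^ m := by
    have h4 : (a.coeff.support.card : ℝ) ≤ ((2 * n + 1 : ℕ) : ℝ) ^ m := by exact_mod_cast h2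
    refine h4.trans ?_
    rw [← mul_pow]
    apply pow_le_pow_left₀ (by positivity)
    push_cast
    linarith
  have h4 : ((2 * m : ℝ) ^ n) ^ 2 ≤ 2 ^ m * ((n : ℝ) + 1) ^ m * B a a :=
    h1.trans (mul_le_mul_of_nonneg_right h3 (B_self_nonneg a))
  have h5 : ((2 * m : ℝ) ^ n) ^ 2 = ((2 * m / s) ^ 2) ^ n * s ^ (n + n) := by
    rw [← pow_mul, ← pow_mul, div_pow, ← two_mul]
    rw [mul_comm n 2]
    field_simp
  rw [h5] at h4
  have hsn : 0 < s ^ (n + n) := by positivity
  have h6 := mul_lt_mul_of_pos_right hn hsn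
  have h7 : 2 ^ m * ((n : ℝ) + 1) ^ m * (max C 0 * s ^ (n + n))
      < 2 ^ m * ((n : ℝ) + 1) ^ m * B a a := by
    calc _ = 2 ^ m * max C 0 * ((n : ℝ) + 1) ^ m * s ^ (n + n) := by ring
      _ < _ := h6
      _ ≤ _ := h4
  have h8 := lt_of_mul_lt_mul_left h7 (by positivity)
  exact lt_of_le_of_lt (mul_le_mul_of_nonneg_right (le_max_left _ _) hsn.le) h8

/-- Q2, for all ranks -/
theorem q2 (hm : 2 ≤ m) (r : Fin m → ℝ) (hr : r ∈ MM m) :
    psi (commutator (FreeGroup (Fin m))) r = psi (⊤ : Subgroup (FreeGroup (Fin m))) r := by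
  have hA : AlmostInv (commutator (FreeGroup (Fin m))) := by
    apply almostInv_comm hm
    intro x y
    obtain ⟨x, rfl⟩ := QuotientGroup.mk_surjective x
    obtain ⟨y, rfl⟩ := QuotientGroup.mk_surjective y
    rw [← QuotientGroup.mk_mul, ← QuotientGroup.mk_mul, QuotientGroup.eq]
    have h1 : (x * y)⁻¹ * (y * x) = ⁅y⁻¹, x⁻¹⁆ := by
      rw [commutatorElement_def]; group
    rw [h1]
    exact Subgroup.commutator_mem_commutator (Subgroup.mem_top _) (Subgroup.mem_top _)
  set i : Fin m := ⟨0, by omega⟩ with hi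
  set j : Fin m := ⟨1, by omega⟩ with hj
  have hij : i ≠ j := by
    intro h
    have := congrArg Fin.val h
    simp [hi, hj] at this
  have hred : IsReduced [(i, true), (j, true), (i, false), (j, false)] := by
    simp [isReduced_cons_cons, hij, hij.symm, IsReduced.singleton]
  apply main_eq (commutator (FreeGroup (Fin m))) hm hA
    (mk [(i, true), (j, true), (i, false), (j, false)]) _ _ r hr
  · have h1 : mk [(i, true), (j, true), (i, false), (j, false)]
        = ⁅(FreeGroup.of i : FreeGroup (Fin m)), FreeGroup.of j⁆ := by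
      rw [commutatorElement_def]
      rfl
    rw [h1]
    exact Subgroup.commutator_mem_commutator (Subgroup.mem_top _) (Subgroup.mem_top _)
  · intro h
    have h1 := congrArg FreeGroup.norm h
    rw [norm_mk_of hred, FreeGroup.norm_one] at h1
    simp at h1

end ab

end Pool.Agent.Helper22.CG
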